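import Pool.Agent.Q145.RA.Law

set_option autoImplicit false
set_option maxHeartbeats 4000000

/-! # The abstract law for all initial segments -/

namespace Pool.Agent.Q145.RA

open Finset Filter

open scoped Classical

variable {α β : Type}

/-- the law for `k` steps -/
def Fix (ε δ : ℝ) (R : α → β → Prop) (V : Finset α) (X k : ℕ) (s : Fin k → β) : Prop :=
  (kap δ X k ≤ 1 - ε → (X : ℝ) ^ (1 - kap δ X k - ε) ≤ surv R V s ∧
    (surv R V s : ℝ) ≤ (X : ℝ) ^ (1 - kap δ X k + ε)) ∧
  (1 + ε ≤ kap δ X k → surv R V s = 0)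

theorem card_filter_inst {γ : Type} (s : Finset γ) (p : γ → Prop) (i j : DecidablePred p) :
    (@Finset.filter _ p i s).card = (@Finset.filter _ p j s).card := by
  have h : i = j := Subsingleton.elim _ _
  subst h
  rfl

theorem fix (ε : ℝ) (hε : 0 < ε) (hε1 : ε ≤ 1) : ∃ X₀ : ℕ, ∀ (δ : ℝ) (S : Finset β) (V : Finset α)
    (R : α → β → Prop), 0 < δ → Reg (ε / 200) δ S V R → X₀ ≤ V.card → ∀ k : ℕ,
    (((seqs S k).filter (fun s => ¬ Fix ε δ R V V.card k s)).card : ℝ) ≤ ε * (S.card : ℝ) ^ k := by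
  obtain ⟨X₁, h1⟩ := low (α := α) (β := β) (ε / 2) (by positivity) (by linarith)
  have hl : Tendsto (fun Y : ℕ => Real.log Y) atTop atTop :=
    Real.tendsto_log_atTop.comp tendsto_natCast_atTop_atTop
  have a3 : ∀ᶠ X : ℕ in atTop, (1 : ℝ) ≤ ε / 4 * Real.exp (ε / 4 * Real.log X) :=
    ((Real.tendsto_exp_atTop.comp (hl.const_mul_atTop (show 0 < ε / 4 by positivity))).const_mul_atTop
      (show 0 < ε / 4 by positivity)).eventually_ge_atTop _
  obtain ⟨X₂, h3⟩ := eventually_atTop.1 (a3.and ((hl.eventually_ge_atTop 1).and (eventually_ge_atTop 3)))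
  refine ⟨max X₁ X₂, fun δ S V R hδ hR hX k => ?_⟩
  have hX₁ : X₁ ≤ V.card := (le_max_left _ _).trans hX
  have hX₂ : X₂ ≤ V.card := (le_max_right _ _).trans hX
  obtain ⟨g7, g3, g2⟩ := h3 V.card hX₂
  have h6 := h1 δ S V R hδ (by rwa [show ε / 2 / 100 = ε / 200 by ring]) hX₁ k
  set X : ℕ := V.card with hVX
  have hXr : (3 : ℝ) ≤ X := by exact_mod_cast g2
  have hX0 : (0 : ℝ) < X := by linarith
  set A := Real.log (X : ℝ) with hA
  set κ := kap δ X k with hκ
  have hA0 : 0 < A := by linarith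
  have hκ0 : 0 ≤ κ := by
    rw [hκ]
    unfold kap
    positivity
  have hkL : δ * k = κ * A := by
    rw [hκ]
    unfold kap
    rw [← hA]
    field_simp
  have hYk : (0 : ℝ) ≤ (S.card : ℝ) ^ k := by positivity
  have hexp : Real.exp (-(ε / 4 * A)) ≤ ε / 4 := by
    rw [Real.exp_neg, inv_le_comm₀ (Real.exp_pos _) (by positivity)]
    rw [inv_le_iff_one_le_mul₀ (by positivity)]
    linarith
  have h7 : (X : ℝ) = Real.exp A := (Real.exp_log hX0).symm
  have hpow : ∀ u : ℝ, (X : ℝ) ^ u = Real.exp (A * u) := fun u => by rw [Real.rpow_def_of_pos hX0]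
  have hup : ∀ t : ℝ, 0 < t → (((seqs S k).filter (fun s => t ≤ surv R V s)).card : ℝ) ≤
      (S.card : ℝ) ^ k * (Real.exp (A * (1 - (1 - ε / 4) * κ)) / t) := by
    intro t ht
    have h4 := up (ε / 200) δ S V R hR k t ht
    refine h4.trans (mul_le_mul_of_nonneg_left (div_le_div_of_nonneg_right ?_ ht.le) hYk)
    have h5 : (1 - ε / 200) * δ * k = (1 - ε / 200) * (κ * A) := by rw [← hkL]; ring
    rw [h5, ← hVX]
    conv_lhs => rw [h7]
    rw [← Real.exp_add]
    apply Real.exp_le_exp.2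
    have : 0 ≤ κ * A := by positivity
    nlinarith
  rcases lt_or_ge (1 - ε) κ with hc | hc
  · rcases lt_or_ge κ (1 + ε) with hd | hd
    · -- nothing to prove
      have h4 : (seqs S k).filter (fun s => ¬ Fix ε δ R V X k s) = ∅ := by
        apply filter_false_of_mem
        intro s _ h5
        apply h5
        exact ⟨fun h6 => absurd h6 (not_le.2 hc), fun h6 => absurd hd (not_lt.2 h6)⟩
      rw [h4, card_empty, Nat.cast_zero]
      exact mul_nonneg hε.le hYk
    · have h4 : (seqs S k).filter (fun s => ¬ Fix ε δ R V X k s) ⊆ (seqs S k).filter (fun s => (1 : ℝ) ≤ surv R V s) := by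
        intro s hs
        obtain ⟨h5, h6⟩ := mem_filter.1 hs
        refine mem_filter.2 ⟨h5, ?_⟩
        by_contra h8
        apply h6
        refine ⟨fun h9 => absurd h9 (not_le.2 hc), fun _ => ?_⟩
        by_contra h9
        apply h8
        exact_mod_cast Nat.one_le_iff_ne_zero.2 h9
      have h5 : (((seqs S k).filter (fun s => ¬ Fix ε δ R V X k s)).card : ℝ) ≤
          (((seqs S k).filter (fun s => (1 : ℝ) ≤ surv R V s)).card : ℝ) := by exact_mod_cast card_le_card h4
      refine (h5.trans (hup 1 one_pos)).trans ?_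
      rw [div_one, mul_comm]
      apply mul_le_mul_of_nonneg_right _ hYk
      calc Real.exp (A * (1 - (1 - ε / 4) * κ)) ≤ Real.exp (-(ε / 4 * A)) := by
            apply Real.exp_le_exp.2
            have : 1 - (1 - ε / 4) * κ ≤ -(ε / 4) := by nlinarith
            nlinarith
        _ ≤ ε / 4 := hexp
        _ ≤ ε := by linarith
  · have h4 : (seqs S k).filter (fun s => ¬ Fix ε δ R V X k s) ⊆
        (seqs S k).filter (fun s => (surv R V s : ℝ) ≤ (X : ℝ) ^ (1 - κ - ε / 2)) ∪
        (seqs S k).filter (fun s => (X : ℝ) ^ (1 - κ + ε) ≤ surv R V s) := by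
      intro s hs
      obtain ⟨h5, h6⟩ := mem_filter.1 hs
      by_contra h8
      rw [mem_union, not_or, mem_filter, mem_filter] at h8
      obtain ⟨h9, h10⟩ := h8
      apply h6
      refine ⟨fun _ => ⟨?_, ?_⟩, fun h11 => by linarith⟩
      · have h11 : (X : ℝ) ^ (1 - κ - ε / 2) < surv R V s := by
          by_contra h12
          exact h9 ⟨h5, not_lt.1 h12⟩
        refine le_trans (Real.rpow_le_rpow_of_exponent_le (by linarith) (by linarith)) h11.le
      · by_contra h12
        exact h10 ⟨h5, (not_le.1 h12).le⟩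
    have h5 : (((seqs S k).filter (fun s => ¬ Fix ε δ R V X k s)).card : ℝ) ≤
        (((seqs S k).filter (fun s => (surv R V s : ℝ) ≤ (X : ℝ) ^ (1 - κ - ε / 2))).card : ℝ) +
        (((seqs S k).filter (fun s => (X : ℝ) ^ (1 - κ + ε) ≤ surv R V s)).card : ℝ) := by
      exact_mod_cast (card_le_card h4).trans (card_union_le _ _)
    have h6 := h6 (by linarith)
    have h8 := hup ((X : ℝ) ^ (1 - κ + ε)) (Real.rpow_pos_of_pos hX0 _)
    have h9 : Real.exp (A * (1 - (1 - ε / 4) * κ)) / (X : ℝ) ^ (1 - κ + ε) ≤ ε / 4 := by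
      rw [hpow, ← Real.exp_sub]
      refine le_trans (Real.exp_le_exp.2 ?_) hexp
      have : (1 - (1 - ε / 4) * κ) - (1 - κ + ε) ≤ -(ε / 4) := by nlinarith
      nlinarith
    have h10 := mul_le_mul_of_nonneg_left h9 hYk
    have h11 : ε / 2 * (S.card : ℝ) ^ k + (S.card : ℝ) ^ k * (ε / 4) ≤ ε * (S.card : ℝ) ^ k := by nlinarith
    linarith

/-- restriction to an initial segment -/
theorem card_restrict (S : Finset β) {k K : ℕ} (h : k ≤ K) (B : (Fin k → β) → Prop) :
    ((seqs S K).filter (fun s => B (fun i => s (Fin.castLE h i)))).card ≤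
      ((seqs S k).filter B).card * S.card ^ (K - k) := by
  rw [← card_seqs S (K - k), ← card_product]
  apply card_le_card_of_injOn (fun s => (fun i => s (Fin.castLE h i), fun i : Fin (K - k) => s ⟨k + i, by omega⟩))
  · intro s hs
    obtain ⟨h1, h2⟩ := mem_filter.1 (mem_coe.1 hs)
    unfold seqs at h1
    rw [Fintype.mem_piFinset] at h1
    rw [mem_coe, mem_product]
    refine ⟨mem_filter.2 ⟨?_, h2⟩, ?_⟩
    · exact Fintype.mem_piFinset.2 fun i => h1 _
    · exact Fintype.mem_piFinset.2 fun i => h1 _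
  · intro s _ s' _ hss
    simp only [Prod.mk.injEq] at hss
    ext i
    rcases lt_or_ge (i : ℕ) k with hi | hi
    · have := congrFun hss.1 ⟨i, hi⟩
      simpa using this
    · have h1 := congrFun hss.2 ⟨i - k, by omega⟩
      simp only at h1
      have h2 : (⟨k + (i - k), by omega⟩ : Fin K) = i := by
        ext
        simp
        omega
      rw [h2] at h1
      exact h1

/-- the points missed by the first `k` terms -/
noncomputable def missed (R : α → β → Prop) (V : Finset α) (k : ℕ) {K : ℕ} (s : Fin K → β) : Finset α :=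
  V.filter (fun n => ∀ i : Fin K, (i : ℕ) < k → ¬ R n (s i))

theorem missed_surv (R : α → β → Prop) (V : Finset α) {k K : ℕ} (h : k ≤ K) (s : Fin K → β) :
    (missed R V k s).card = surv R V (fun i => s (Fin.castLE h i)) := by
  unfold missed surv
  congr 1
  apply filter_congr
  intro n _
  constructor
  · intro h1 i
    exact h1 (Fin.castLE h i) i.isLt
  · intro h1 i hi
    exact h1 ⟨i, hi⟩

theorem missed_mono (R : α → β → Prop) (V : Finset α) {k k' K : ℕ} (h : k ≤ k') (s : Fin K → β) :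
    missed R V k' s ⊆ missed R V k s := by
  unfold missed
  intro n hn
  obtain ⟨h1, h2⟩ := mem_filter.1 hn
  exact mem_filter.2 ⟨h1, fun i hi => h2 i (by omega)⟩

/-- the law for all initial segments -/
def All (ε δ : ℝ) (R : α → β → Prop) (V : Finset α) (K : ℕ) (s : Fin K → β) : Prop := ∀ k ≤ K,
  (kap δ V.card k ≤ 1 - ε → (V.card : ℝ) ^ (1 - kap δ V.card k - ε) ≤ (missed R V k s).card ∧
    ((missed R V k s).card : ℝ) ≤ (V.card : ℝ) ^ (1 - kap δ V.card k + ε)) ∧
  (1 + ε ≤ kap δ V.card k → missed R V k s = ∅)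

/-- **The law of random killing.** -/
theorem law (ε : ℝ) (hε : 0 < ε) (hε1 : ε ≤ 1) : ∃ η : ℝ, 0 < η ∧ ∃ X₀ : ℕ, ∀ (δ : ℝ) (S : Finset β) (V : Finset α)
    (R : α → β → Prop), 0 < δ → δ ≤ 1 → Reg η δ S V R → X₀ ≤ V.card → ∀ K : ℕ,
    (((seqs S K).filter (fun s => ¬ All ε δ R V K s)).card : ℝ) ≤ ε * (S.card : ℝ) ^ K := by
  set J : ℕ := ⌈4 / ε⌉₊ + 5 with hJ
  have hJr : 4 / ε + 5 ≤ J := by
    rw [hJ]
    push_cast
    linarith [Nat.le_ceil (4 / ε)]
  have hJ0 : (0 : ℝ) < J := by
    have : 0 < 4 / ε := by positivity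
    linarith
  set ε' : ℝ := ε / J with hε'
  have hε'0 : 0 < ε' := by positivity
  have hε'1 : ε' ≤ ε / 4 := by
    apply div_le_div_of_nonneg_left hε.le (by norm_num)
    have : 0 < 4 / ε := by positivity
    linarith
  obtain ⟨X₁, h1⟩ := fix (α := α) (β := β) ε' hε'0 (by linarith)
  have hl : Tendsto (fun Y : ℕ => Real.log Y) atTop atTop :=
    Real.tendsto_log_atTop.comp tendsto_natCast_atTop_atTop
  obtain ⟨X₂, h2⟩ := eventually_atTop.1 (hl.eventually_ge_atTop (8 / ε))
  refine ⟨ε' / 200, by positivity, max X₁ (max X₂ 3), fun δ S V R hδ hδ1 hR hX K => ?_⟩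
  have hX₁ : X₁ ≤ V.card := (le_max_left _ _).trans hX
  have hX₂ : X₂ ≤ V.card := ((le_max_left _ _).trans (le_max_right _ _)).trans hX
  have hX₃ : 3 ≤ V.card := ((le_max_right _ _).trans (le_max_right _ _)).trans hX
  have hA8 := h2 V.card hX₂
  set X : ℕ := V.card with hVX
  have hXr : (3 : ℝ) ≤ X := by exact_mod_cast hX₃
  have hX0 : (0 : ℝ) < X := by linarith
  have hX1 : (1 : ℝ) ≤ X := by linarith
  set A := Real.log (X : ℝ) with hA
  have h8 : 8 ≤ 8 / ε := by
    rw [le_div_iff₀ hε]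
    linarith
  set P : ℝ := A / δ with hP
  have hP8 : 8 / ε ≤ P := by
    rw [hP, le_div_iff₀ hδ]
    nlinarith
  have hP0 : 0 < P := by linarith
  have h1P : 1 ≤ ε / 8 * P := by
    rw [div_le_iff₀ hε] at hP8
    linarith
  have hkap : ∀ k : ℕ, kap δ X k = k / P := fun k => by
    unfold kap
    rw [hP, ← hA, div_div_eq_mul_div]
  set kj : ℕ → ℕ := fun j => min ⌊j * (ε / 4) * P⌋₊ K with hkj
  have hkjK : ∀ j, kj j ≤ K := fun j => min_le_right _ _
  -- the union bound
  have hun : (seqs S K).filter (fun s => ¬ All ε δ R V K s) ⊆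
      (range J).biUnion (fun j => (seqs S K).filter (fun s => ¬ Fix ε' δ R V X (kj j) (fun i => s (Fin.castLE (hkjK j) i)))) := by
    intro s hs
    obtain ⟨h3, h4⟩ := mem_filter.1 hs
    by_contra h5
    apply h4
    have hfix : ∀ j < J, Fix ε' δ R V X (kj j) (fun i => s (Fin.castLE (hkjK j) i)) := by
      intro j hj
      by_contra h6
      exact h5 (mem_biUnion.2 ⟨j, mem_range.2 hj, mem_filter.2 ⟨h3, h6⟩⟩)
    intro k hk
    have hk0 : (0 : ℝ) ≤ k := Nat.cast_nonneg _
    constructor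
    · intro hκ
      rw [← hVX, hkap] at hκ ⊢
      set κ : ℝ := (k : ℝ) / P with hκd
      have hκ0 : 0 ≤ κ := by positivity
      have hkP : (k : ℝ) = κ * P := by rw [hκd]; field_simp
      set j : ℕ := ⌊κ / (ε / 4)⌋₊ with hj
      have hj1 : (j : ℝ) ≤ κ / (ε / 4) := Nat.floor_le (by positivity)
      have hj2 : κ / (ε / 4) < j + 1 := Nat.lt_floor_add_one _
      rw [le_div_iff₀ (by positivity)] at hj1
      rw [div_lt_iff₀ (by positivity)] at hj2
      have hjJ : j + 1 < J := by
        have h6 : (j : ℝ) ≤ 4 / ε := by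
          rw [le_div_iff₀ hε]
          nlinarith
        have h7 : ((j + 1 : ℕ) : ℝ) < J := by
          push_cast
          linarith
        exact_mod_cast h7
      constructor
      · -- lower bound
        have h6 : k ≤ kj (j + 1) := by
          apply le_min _ hk
          apply Nat.le_floor
          rw [hkP]
          push_cast
          exact mul_le_mul_of_nonneg_right hj2.le hP0.le
        have h7 : ((kj (j + 1) : ℕ) : ℝ) / P ≤ κ + ε / 4 := by
          rw [div_le_iff₀ hP0]
          have e1 : ((kj (j + 1) : ℕ) : ℝ) ≤ ⌊((j + 1 : ℕ) : ℝ) * (ε / 4) * P⌋₊ := by exact_mod_cast min_le_left _ _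
          have e2 : (⌊((j + 1 : ℕ) : ℝ) * (ε / 4) * P⌋₊ : ℝ) ≤ ((j + 1 : ℕ) : ℝ) * (ε / 4) * P := Nat.floor_le (by positivity)
          push_cast at e1 e2
          nlinarith
        have h9 := ((hfix (j + 1) hjJ).1 (by rw [hkap]; linarith)).1
        rw [← missed_surv, hkap] at h9
        have h10 : ((missed R V (kj (j + 1)) s).card : ℝ) ≤ (missed R V k s).card := by
          exact_mod_cast card_le_card (missed_mono R V h6 s)
        refine le_trans (Real.rpow_le_rpow_of_exponent_le hX1 ?_) (h9.trans h10)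
        linarith
      · -- upper bound
        have h6 : ⌊(j : ℝ) * (ε / 4) * P⌋₊ ≤ k := by
          have e1 : (⌊(j : ℝ) * (ε / 4) * P⌋₊ : ℝ) ≤ (j : ℝ) * (ε / 4) * P := Nat.floor_le (by positivity)
          have e2 : (j : ℝ) * (ε / 4) * P ≤ κ * P := mul_le_mul_of_nonneg_right hj1 hP0.le
          have e3 : (⌊(j : ℝ) * (ε / 4) * P⌋₊ : ℝ) ≤ k := by linarith
          exact_mod_cast e3
        have h6' : kj j = ⌊(j : ℝ) * (ε / 4) * P⌋₊ := min_eq_left (h6.trans hk)
        have h7 : κ - ε / 4 - ε / 8 ≤ ((kj j : ℕ) : ℝ) / P := by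
          rw [le_div_iff₀ hP0, h6']
          have e1 := Nat.lt_floor_add_one ((j : ℝ) * (ε / 4) * P)
          nlinarith
        have h7' : ((kj j : ℕ) : ℝ) / P ≤ κ := by
          rw [div_le_iff₀ hP0, h6', ← hkP]
          exact_mod_cast h6
        have h9 := ((hfix j (by omega)).1 (by rw [hkap]; linarith)).2
        rw [← missed_surv, hkap] at h9
        have h10 : ((missed R V k s).card : ℝ) ≤ (missed R V (kj j) s).card := by
          have : kj j ≤ k := by rw [h6']; exact h6
          exact_mod_cast card_le_card (missed_mono R V this s)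
        refine le_trans (h10.trans h9) (Real.rpow_le_rpow_of_exponent_le hX1 ?_)
        linarith
    · intro hκ
      rw [← hVX, hkap, le_div_iff₀ hP0] at hκ
      set j : ℕ := ⌈(1 + ε / 2) / (ε / 4)⌉₊ with hj
      have hj1 : (1 + ε / 2) / (ε / 4) ≤ j := Nat.le_ceil _
      have hj2 : (j : ℝ) < (1 + ε / 2) / (ε / 4) + 1 := Nat.ceil_lt_add_one (by positivity)
      have hj2' : (j : ℝ) * (ε / 4) < 1 + ε / 2 + ε / 4 := by
        have e1 : ((1 + ε / 2) / (ε / 4) + 1) * (ε / 4) = 1 + ε / 2 + ε / 4 := by field_simp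
        have e2 := mul_lt_mul_of_pos_right hj2 (show 0 < ε / 4 by positivity)
        linarith
      rw [div_le_iff₀ (by positivity)] at hj1
      have hjJ : j < J := by
        have h6 : (j : ℝ) < 4 / ε + 3 := by
          have : (1 + ε / 2) / (ε / 4) + 1 = 4 / ε + 3 := by
            field_simp
            ring
          linarith
        have h7 : (j : ℝ) < J := by linarith
        exact_mod_cast h7
      have h6 : ⌊(j : ℝ) * (ε / 4) * P⌋₊ ≤ k := by
        have e1 : (⌊(j : ℝ) * (ε / 4) * P⌋₊ : ℝ) ≤ (j : ℝ) * (ε / 4) * P := Nat.floor_le (by positivity)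
        have e2 : (j : ℝ) * (ε / 4) * P ≤ (1 + ε / 2 + ε / 4) * P := mul_le_mul_of_nonneg_right hj2'.le hP0.le
        have e3 : (⌊(j : ℝ) * (ε / 4) * P⌋₊ : ℝ) ≤ k := by nlinarith
        exact_mod_cast e3
      have h6' : kj j = ⌊(j : ℝ) * (ε / 4) * P⌋₊ := min_eq_left (h6.trans hk)
      have h7 : 1 + ε' ≤ kap δ X (kj j) := by
        rw [hkap, le_div_iff₀ hP0, h6']
        have e1 := Nat.lt_floor_add_one ((j : ℝ) * (ε / 4) * P)
        have e2 : (1 + ε / 2) * P ≤ (j : ℝ) * (ε / 4) * P := mul_le_mul_of_nonneg_right hj1 hP0.le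
        nlinarith
      have h9 := (hfix j hjJ).2 h7
      rw [← missed_surv, card_eq_zero] at h9
      have h10 : missed R V k s ⊆ missed R V (kj j) s := missed_mono R V (by rw [h6']; exact h6) s
      rw [h9] at h10
      exact subset_empty.1 h10
  have h3 : (((seqs S K).filter (fun s => ¬ All ε δ R V K s)).card : ℝ) ≤ ∑ j ∈ range J, ε' * (S.card : ℝ) ^ K := by
    have h4 : (((seqs S K).filter (fun s => ¬ All ε δ R V K s)).card : ℝ) ≤
        ∑ j ∈ range J, (((seqs S K).filter (fun s => ¬ Fix ε' δ R V X (kj j) (fun i => s (Fin.castLE (hkjK j) i)))).card : ℝ) := by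
      exact_mod_cast (card_le_card hun).trans card_biUnion_le
    refine h4.trans (sum_le_sum fun j _ => ?_)
    have h5 := card_restrict S (hkjK j) (fun s => ¬ Fix ε' δ R V X (kj j) s)
    have h6 : (((seqs S K).filter (fun s => ¬ Fix ε' δ R V X (kj j) (fun i => s (Fin.castLE (hkjK j) i)))).card : ℝ) ≤
        (((seqs S (kj j)).filter (fun s => ¬ Fix ε' δ R V X (kj j) s)).card : ℝ) * (S.card : ℝ) ^ (K - kj j) := by
      refine (le_of_eq (congrArg Nat.cast (card_filter_inst _ _ _ _))).trans ((Nat.cast_le.2 h5).trans (le_of_eq ?_))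
      rw [Nat.cast_mul, Nat.cast_pow]
      exact congrArg (fun t : ℕ => (t : ℝ) * (S.card : ℝ) ^ (K - kj j)) (card_filter_inst _ _ _ _)
    refine h6.trans ?_
    calc (((seqs S (kj j)).filter (fun s => ¬ Fix ε' δ R V X (kj j) s)).card : ℝ) * (S.card : ℝ) ^ (K - kj j)
        ≤ ε' * (S.card : ℝ) ^ (kj j) * (S.card : ℝ) ^ (K - kj j) :=
          mul_le_mul_of_nonneg_right (h1 δ S V R hδ hR hX₁ (kj j)) (by positivity)
      _ = ε' * (S.card : ℝ) ^ K := by rw [mul_assoc, ← pow_add, Nat.add_sub_cancel' (hkjK j)]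
  refine h3.trans (le_of_eq ?_)
  rw [sum_const, card_range, nsmul_eq_mul, hε']
  field_simp

end Pool.Agent.Q145.RA
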