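import Pool.Agent.Q145.RA.MultSieve

set_option autoImplicit false
set_option maxHeartbeats 4000000

/-! # An upper bound for the number of multipliers which put `r` classes modulo `d` into the primes -/

namespace Pool.Agent.Q145.RA

open Finset Filter
open Pool.Agent.Q145.MT (card_filter_inst ratio_small)
open Pool.Agent.H373R2.T7 (pz nuB PerB mem_pz sys_fund Vz nuB_le)
open Pool.Agent.Q145.RC (DH DH_ne DH_le Vz_eq exists_root_nat growth)

open scoped Classical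

theorem totient_le_one (n : ℕ) (hn : n ≠ 0) : (1 : ℝ) ≤ (n : ℝ) / n.totient := by
  have h1 : (0 : ℝ) < n.totient := by exact_mod_cast Nat.totient_pos.2 (Nat.pos_of_ne_zero hn)
  rw [le_div_iff₀ h1, one_mul]
  exact_mod_cast Nat.totient_le n

theorem shiftsM_bd (r : ℕ) (hr : 1 ≤ r) : ∃ C : ℝ, 0 < C ∧ ∃ Y₀ : ℕ, ∀ Y : ℕ, Y₀ ≤ Y → ∀ d : ℕ, d ≠ 0 →
    ∀ H : Finset ℕ, H.card = r →
    (∀ n ∈ H, n ≤ Y ∧ n.Coprime d) → (((Icc 1 Y).filter (fun s => ∀ n ∈ H, (n + s * d).Prime)).card : ℝ) ≤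
      C * Real.log (Real.log Y) ^ (r - 1) * ((d : ℝ) / d.totient) ^ r / Real.log Y ^ r * Y := by
  obtain ⟨K, x0, hK, hF⟩ := sys_fund r hr 1 one_pos
  obtain ⟨c₁, c₂, hc₁, hc₁₂, hcz⟩ := Pool.Agent.H318R2.Cr.cz_bounds
  obtain ⟨C₃, hC₃, hrat⟩ := ratio_log
  have hc₂ : 0 < c₂ := lt_of_lt_of_le hc₁ hc₁₂
  obtain ⟨Y₀, hY₀⟩ := eventually_atTop.1 (growth r ((x0 + 2) ^ (K + 1) + 3))
  refine ⟨2 * (2 * (K + 1) * c₂) ^ r * (2 * C₃) ^ (r - 1) + 1, by positivity, Y₀, fun Y hY d hd H hHr hHY => ?_⟩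
  obtain ⟨g1, g2, g3, g4, g5⟩ := hY₀ Y hY
  obtain ⟨y, hy1, hy2, hy3, hy4⟩ := exists_root_nat (K + 1) x0 Y (by omega) (by omega)
  have hH : H.Nonempty := card_pos.1 (by omega)
  have hY3 : 3 ≤ Y := by omega
  have hYr : (3 : ℝ) ≤ Y := by exact_mod_cast hY3
  have hy2r : (2 : ℝ) ≤ y := by exact_mod_cast hy2
  have hyK : y ^ K ≤ Y := (Nat.pow_le_pow_right (by omega) (by omega)).trans hy3
  have hyY : y * y ≤ Y := by
    refine le_trans ?_ hy3
    rw [← sq]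
    exact Nat.pow_le_pow_right (by omega) (by omega)
  have h1 := hF Y y hy1 hyK (QM H d) (by
    have := perM H d (fun n hn => (hHY n hn).2)
    rwa [hHr] at this) Y
  set L := Real.log (Y : ℝ) with hL
  set G := Real.log L with hG
  set Φ : ℝ := (d : ℝ) / d.totient with hΦ
  have hΦ1 : 1 ≤ Φ := totient_le_one d hd
  have hL0 : 0 < L := by linarith
  have hG0 : 0 < G := by linarith
  have hY0 : (0 : ℝ) < Y := by linarith
  have hly : 0 < Real.log (y : ℝ) := Real.log_pos (by linarith)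
  have hV0 : 0 ≤ Vz y := by
    rw [Vz_eq]
    exact (Pool.Agent.H318R2.Cr.V_pos y).le
  -- the product of the densities
  have hV : Vz y ≤ 2 * (K + 1) * c₂ / L := by
    have h2 := (hcz y hy2).2
    rw [← Vz_eq] at h2
    rw [le_div_iff₀ hL0]
    push_cast at hy4
    calc Vz y * L ≤ Vz y * (2 * (K + 1) * Real.log y) := mul_le_mul_of_nonneg_left hy4 hV0
      _ = 2 * (K + 1) * (Vz y * Real.log y) := by ring
      _ ≤ 2 * (K + 1) * c₂ := mul_le_mul_of_nonneg_left h2 (by positivity)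
  -- the singular factor
  have hD : (DH H : ℝ) / (DH H).totient ≤ 2 * C₃ * G := by
    have h6 : Real.log (DH H : ℝ) ≤ L ^ 2 := by
      have h7 : ((DH H : ℕ) : ℝ) ≤ (Y : ℝ) ^ (r ^ 2) := by
        have := DH_le H Y (by omega) (fun n hn => (hHY n hn).1)
        rw [hHr] at this
        exact_mod_cast this
      have h8 : (0 : ℝ) < (DH H : ℝ) := by
        have := Nat.pos_of_ne_zero (DH_ne H)
        exact_mod_cast this
      have h9 := Real.log_le_log h8 h7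
      rw [Real.log_pow] at h9
      push_cast at h9
      linarith
    have h7 := hrat (DH H) (L ^ 2) (DH_ne H) (by nlinarith) h6
    rw [Real.log_pow] at h7
    refine h7.trans (le_of_eq ?_)
    push_cast
    ring
  have hprod : ∏ p ∈ pz y, (1 - (nuB (QM H d) p : ℝ) / p) ≤
      (2 * (K + 1) * c₂ / L) ^ r * Φ ^ r * (2 * C₃ * G) ^ (r - 1) := by
    refine (prodM_bd H hH d hd (fun n hn => (hHY n hn).2) y).trans ?_
    rw [hHr]
    apply mul_le_mul
    · apply mul_le_mul_of_nonneg_right (pow_le_pow_left₀ hV0 hV r) (by positivity)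
    · exact pow_le_pow_left₀ (by positivity) hD _
    · positivity
    · positivity
  -- the count
  have hcount : ((Icc 1 Y).filter (fun s => ∀ n ∈ H, (n + s * d).Prime)).card ≤
      ((Icc 1 Y).filter (fun s : ℕ => ∀ p ∈ pz y, ¬ QM H d p s)).card + y := by
    have h2 : (Icc 1 Y).filter (fun s => ∀ n ∈ H, (n + s * d).Prime) ⊆
        (Icc 1 Y).filter (fun s : ℕ => ∀ p ∈ pz y, ¬ QM H d p s) ∪ Icc 1 y := by
      intro a ha
      obtain ⟨h3, h4⟩ := mem_filter.1 ha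
      have h3' := mem_Icc.1 h3
      by_cases h5 : a ≤ y
      · exact mem_union_right _ (mem_Icc.2 ⟨h3'.1, h5⟩)
      · apply mem_union_left
        refine mem_filter.2 ⟨h3, ?_⟩
        rintro p hp ⟨n, hn, hpd⟩
        have h6 := mem_pz.1 hp
        have h7 := (Nat.prime_dvd_prime_iff_eq h6.2 (h4 n hn)).1 hpd
        have h8 : a ≤ a * d := Nat.le_mul_of_pos_right a (Nat.pos_of_ne_zero hd)
        omega
    refine (card_le_card h2).trans ((card_union_le _ _).trans ?_)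
    rw [Nat.card_Icc, Nat.add_sub_cancel]
  have hcr : (((Icc 1 Y).filter (fun s => ∀ n ∈ H, (n + s * d).Prime)).card : ℝ) ≤
      (((Icc 1 Y).filter (fun s : ℕ => ∀ p ∈ pz y, ¬ QM H d p s)).card : ℝ) + y := by exact_mod_cast hcount
  have h2 : (((Icc 1 Y).filter (fun s : ℕ => ∀ p ∈ pz y, ¬ QM H d p s)).card : ℝ) ≤
      2 * (Y * ∏ p ∈ pz y, (1 - (nuB (QM H d) p : ℝ) / p)) + √(Y : ℝ) := by
    have h3 := (abs_le.1 h1).2
    have h5 : (((Icc 1 Y).filter (fun n : ℕ => ∀ p ∈ pz y, ¬ QM H d p n)).card : ℝ) =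
          ((@Finset.filter _ (fun n : ℕ => ∀ p ∈ pz y, ¬ QM H d p n) (fun _ => Classical.propDecidable _) (Icc 1 Y)).card : ℝ) :=
        congrArg Nat.cast (card_filter_inst _ _ _ _)
    linarith
  have h3 : (y : ℝ) ≤ √(Y : ℝ) := by
    apply Real.le_sqrt_of_sq_le
    rw [sq]
    exact_mod_cast hyY
  have h4 : (1 : ℝ) ≤ G ^ (r - 1) * Φ ^ r := by
    have e1 : (1 : ℝ) ≤ G ^ (r - 1) := one_le_pow₀ g2
    have e2 : (1 : ℝ) ≤ Φ ^ r := one_le_pow₀ hΦ1
    nlinarith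
  have h5 : (Y : ℝ) / L ^ r ≤ 1 * G ^ (r - 1) * Φ ^ r / L ^ r * Y := by
    rw [one_mul, div_mul_eq_mul_div]
    apply div_le_div_of_nonneg_right _ (by positivity)
    nlinarith
  calc (((Icc 1 Y).filter (fun s => ∀ n ∈ H, (n + s * d).Prime)).card : ℝ)
      ≤ 2 * (Y * ((2 * (K + 1) * c₂ / L) ^ r * Φ ^ r * (2 * C₃ * G) ^ (r - 1))) + 2 * √(Y : ℝ) := by
        have := mul_le_mul_of_nonneg_left hprod hY0.le
        linarith
    _ ≤ 2 * (Y * ((2 * (K + 1) * c₂ / L) ^ r * Φ ^ r * (2 * C₃ * G) ^ (r - 1))) +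
        1 * G ^ (r - 1) * Φ ^ r / L ^ r * Y := by linarith
    _ = (2 * (2 * (K + 1) * c₂) ^ r * (2 * C₃) ^ (r - 1) + 1) * G ^ (r - 1) * Φ ^ r / L ^ r * Y := by
        rw [div_pow, mul_pow (2 * C₃) G]
        ring

end Pool.Agent.Q145.RA
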