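import Pool.Agent.Q145.RA.MultDeg2
import Pool.Agent.Q145.RA.MultCount
import Pool.Agent.Q145.RA.All

set_option autoImplicit false
set_option maxHeartbeats 4000000

/-! # The law for the classes modulo `d` and random multipliers -/

namespace Pool.Agent.Q145.RA

open Finset Filter

open scoped Classical

/-- the reduced classes -/
noncomputable def Cl (d : ℕ) : Finset ℕ := (Icc 1 d).filter (fun a => a.Coprime d)

theorem card_Cl (d : ℕ) (hd : 1 ≤ d) : (Cl d).card = d.totient := by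
  unfold Cl
  rw [Nat.totient_eq_card_coprime]
  rcases Nat.eq_or_lt_of_le hd with h | h
  · subst h
    rfl
  · congr 1
    ext a
    rw [mem_filter, mem_filter, mem_Icc, mem_range]
    constructor
    · rintro ⟨⟨h1, h2⟩, h3⟩
      refine ⟨?_, Nat.coprime_comm.1 h3⟩
      rcases Nat.eq_or_lt_of_le h2 with h4 | h4
      · rw [h4, Nat.coprime_self] at h3
        omega
      · exact h4
    · rintro ⟨h1, h2⟩
      refine ⟨⟨?_, h1.le⟩, Nat.coprime_comm.1 h2⟩
      rcases Nat.eq_zero_or_pos a with h3 | h3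
      · rw [h3, Nat.coprime_zero_right] at h2
        omega
      · exact h3

/-- the density -/
noncomputable def dens (d Y : ℕ) : ℝ := (d : ℝ) / d.totient / Real.log (d * Y : ℝ)

theorem growthM (C η : ℝ) (hC : 0 < C) (hη : 0 < η) : ∀ᶠ Y : ℕ in atTop,
    3 ≤ Real.log Y ∧ 1 ≤ Real.log (Real.log Y) ∧ C * Real.log (Real.log Y) ^ 4 ≤ η * Real.log Y := by
  have hl : Tendsto (fun Y : ℕ => Real.log Y) atTop atTop :=
    Real.tendsto_log_atTop.comp tendsto_natCast_atTop_atTop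
  have hll : Tendsto (fun Y : ℕ => Real.log (Real.log Y)) atTop atTop := Real.tendsto_log_atTop.comp hl
  have a2 : ∀ᶠ Y : ℕ in atTop, C * Real.log (Real.log Y) ^ 4 ≤ η * Real.log Y := by
    have h1 := (isLittleO_log_rpow_rpow_atTop (4 : ℝ) (show (0 : ℝ) < 1 by norm_num)).bound
      (show (0 : ℝ) < η / C by positivity)
    have h2 := hl.eventually h1
    filter_upwards [h2, hl.eventually_ge_atTop 1, hll.eventually_ge_atTop 0] with X h3 h4 h5
    rw [show (4 : ℝ) = ((4 : ℕ) : ℝ) by norm_num, Real.rpow_natCast, Real.rpow_one,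
      Real.norm_of_nonneg (by positivity), Real.norm_of_nonneg (by linarith), div_mul_eq_mul_div,
      le_div_iff₀ (by positivity)] at h3
    linarith
  filter_upwards [a2, hl.eventually_ge_atTop 3, hll.eventually_ge_atTop 1] with Y h1 h2 h3
  exact ⟨h2, h3, h1⟩

/-- regularity at a modulus with good degrees -/
theorem reg_mult (η : ℝ) (hη : 0 < η) : ∃ Y₀ : ℕ, ∀ d Y : ℕ, 7 ≤ d → Y₀ ≤ Y → d ≤ Y →
    (∀ a : ℕ, 1 ≤ a → a ≤ d → a.Coprime d → (1 - η) * mexp d Y ≤ cnt d Y a ∧ (cnt d Y a : ℝ) ≤ (1 + η) * mexp d Y) →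
    dens d Y ≤ 1 ∧ Reg η (dens d Y) (Icc 1 Y) (Cl d) (fun a s => (a + s * d).Prime) := by
  obtain ⟨C₂, hC₂, Y₂, h2⟩ := shiftsM_bd 2 (by norm_num)
  obtain ⟨C₃, hC₃, Y₃, h3⟩ := shiftsM_bd 3 (by norm_num)
  obtain ⟨C, hC, hrat⟩ := ratio_log
  obtain ⟨Y₄, h4⟩ := eventually_atTop.1 (growthM (2 * C₂ * C + 2 * C₃ * C ^ 2) η (by positivity) hη)
  obtain ⟨Y₅, h5⟩ := eventually_atTop.1 (growthM C 1 (by positivity) one_pos)
  refine ⟨max (max Y₂ Y₃) (max Y₄ Y₅), fun d Y hd7 hY hdY hdeg => ?_⟩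
  have hY₂ : Y₂ ≤ Y := ((le_max_left _ _).trans (le_max_left _ _)).trans hY
  have hY₃ : Y₃ ≤ Y := ((le_max_right _ _).trans (le_max_left _ _)).trans hY
  have hY₄ : Y₄ ≤ Y := ((le_max_left _ _).trans (le_max_right _ _)).trans hY
  have hY₅ : Y₅ ≤ Y := ((le_max_right _ _).trans (le_max_right _ _)).trans hY
  obtain ⟨g1, g2, g3⟩ := h4 Y hY₄
  obtain ⟨-, -, g4⟩ := h5 Y hY₅
  have hdr : (7 : ℝ) ≤ d := by exact_mod_cast hd7
  have hdYr : (d : ℝ) ≤ Y := by exact_mod_cast hdY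
  have hφ0 : (0 : ℝ) < d.totient := by exact_mod_cast Nat.totient_pos.2 (by omega)
  have hφd : (d.totient : ℝ) ≤ d := by exact_mod_cast Nat.totient_le d
  set L := Real.log (Y : ℝ) with hL
  set G := Real.log L with hG
  set Φ : ℝ := (d : ℝ) / d.totient with hΦ
  have hL0 : 0 < L := by linarith
  have hG0 : 0 < G := by linarith
  have hY0 : (0 : ℝ) < Y := by linarith
  have hΦ1 : 1 ≤ Φ := totient_le_one d (by omega)
  have hld : Real.log (d : ℝ) ≤ L := Real.log_le_log (by linarith) hdYr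
  have hΦG : Φ ≤ C * G := hrat d L (by omega) g1 hld
  set W : ℝ := Real.log (d * Y : ℝ) with hW
  have hWL : W ≤ 2 * L := by
    rw [hW, Real.log_mul (by linarith) (by linarith)]
    linarith
  have hLW : L ≤ W := by
    rw [hW, hL]
    apply Real.log_le_log hY0
    nlinarith
  have hW0 : 0 < W := by linarith
  have hdens : dens d Y = Φ / W := rfl
  have hmexp : mexp d Y = Φ / W * Y := by
    unfold mexp
    rw [hΦ, hW]
    field_simp
  have hG1 : G ≤ G ^ 4 := le_self_pow₀ g2 (by norm_num)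
  refine ⟨?_, ?_, ?_, ?_, ?_⟩
  · rw [hdens, div_le_one hW0]
    have : C * G ≤ C * G ^ 4 := mul_le_mul_of_nonneg_left hG1 hC.le
    linarith
  · intro n hn
    obtain ⟨h6, h7⟩ := mem_filter.1 hn
    have h8 := (hdeg n (mem_Icc.1 h6).1 (mem_Icc.1 h6).2 h7).1
    rw [Nat.card_Icc, Nat.add_sub_cancel, hdens]
    rw [hmexp, ← mul_assoc] at h8
    exact h8.trans (le_of_eq (congrArg Nat.cast (card_filter_inst _ _ _ _)))
  · intro H hH hc
    obtain ⟨n, rfl⟩ := card_eq_one.1 hc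
    obtain ⟨h6, h7⟩ := mem_filter.1 (hH (mem_singleton_self n))
    have h8 := (hdeg n (mem_Icc.1 h6).1 (mem_Icc.1 h6).2 h7).2
    have h5 : ((Icc 1 Y).filter (fun s => ∀ n' ∈ ({n} : Finset ℕ), (n' + s * d).Prime)).card ≤ cnt d Y n := by
      unfold cnt
      apply card_le_card
      intro a ha
      obtain ⟨h6, h7⟩ := mem_filter.1 ha
      exact mem_filter.2 ⟨h6, h7 n (mem_singleton_self n)⟩
    rw [Nat.card_Icc, Nat.add_sub_cancel, hdens]
    rw [hmexp, ← mul_assoc] at h8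
    exact (le_of_eq (congrArg Nat.cast (card_filter_inst _ _ _ _))).trans ((Nat.cast_le.2 h5).trans h8)
  · intro H hH hc
    have h4 := h2 Y hY₂ d (by omega) H hc (fun n hn => by
      obtain ⟨h6, h7⟩ := mem_filter.1 (hH hn)
      exact ⟨(mem_Icc.1 h6).2.trans hdY, h7⟩)
    rw [Nat.card_Icc, Nat.add_sub_cancel, hdens]
    refine (le_of_eq (congrArg Nat.cast (card_filter_inst _ _ _ _))).trans (h4.trans ?_)
    rw [show 2 - 1 = 1 by norm_num, pow_one]
    apply mul_le_mul_of_nonneg_right _ hY0.le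
    have e1 : C₂ * G * Φ ^ 2 / L ^ 2 ≤ η * Φ / (2 * L) := by
      rw [div_le_div_iff₀ (by positivity) (by positivity)]
      have f1 : C₂ * G * Φ ≤ C₂ * C * G ^ 4 := by
        calc C₂ * G * Φ ≤ C₂ * G * (C * G) := mul_le_mul_of_nonneg_left hΦG (by positivity)
          _ = C₂ * C * G ^ 2 := by ring
          _ ≤ C₂ * C * G ^ 4 := by
            apply mul_le_mul_of_nonneg_left _ (by positivity)
            exact pow_le_pow_right₀ g2 (by norm_num)
      have f2 : 2 * (C₂ * G * Φ) ≤ η * L := by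
        have : 0 ≤ 2 * C₃ * C ^ 2 * G ^ 4 := by positivity
        nlinarith
      calc C₂ * G * Φ ^ 2 * (2 * L) = (2 * (C₂ * G * Φ)) * (Φ * L) := by ring
        _ ≤ (η * L) * (Φ * L) := mul_le_mul_of_nonneg_right f2 (by positivity)
        _ = η * Φ * L ^ 2 := by ring
    refine e1.trans ?_
    rw [(mul_div_assoc η Φ W).symm]
    apply div_le_div_of_nonneg_left (by positivity) hW0 hWL
  · intro H hH hc
    have h4 := h3 Y hY₃ d (by omega) H hc (fun n hn => by
      obtain ⟨h6, h7⟩ := mem_filter.1 (hH hn)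
      exact ⟨(mem_Icc.1 h6).2.trans hdY, h7⟩)
    rw [Nat.card_Icc, Nat.add_sub_cancel, hdens, card_Cl d (by omega)]
    refine (le_of_eq (congrArg Nat.cast (card_filter_inst _ _ _ _))).trans (h4.trans ?_)
    rw [show 3 - 1 = 2 by norm_num]
    apply mul_le_mul_of_nonneg_right _ hY0.le
    -- the logarithm of the totient
    have hlφ : Real.log (d.totient : ℝ) ≤ L := (Real.log_le_log hφ0 hφd).trans hld
    have hφ2 : (2 : ℝ) ≤ d.totient := by
      have h6 : 2 ≤ d.totient := by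
        have h7 := Nat.totient_even (n := d) (by omega)
        have h8 := Nat.totient_pos.2 (show 0 < d by omega)
        rcases h7 with ⟨m, hm⟩
        omega
      exact_mod_cast h6
    have hlφ0 : 0 < Real.log (d.totient : ℝ) := Real.log_pos (by linarith)
    have e1 : C₃ * G ^ 2 * Φ ^ 3 / L ^ 3 ≤ η * Φ / (2 * L * L) := by
      rw [div_le_div_iff₀ (by positivity) (by positivity)]
      have f1 : C₃ * G ^ 2 * Φ ^ 2 ≤ C₃ * C ^ 2 * G ^ 4 := by
        calc C₃ * G ^ 2 * Φ ^ 2 ≤ C₃ * G ^ 2 * (C * G) ^ 2 := by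
              apply mul_le_mul_of_nonneg_left _ (by positivity)
              exact pow_le_pow_left₀ (by linarith) hΦG 2
          _ = C₃ * C ^ 2 * G ^ 4 := by ring
      have f2 : 2 * (C₃ * G ^ 2 * Φ ^ 2) ≤ η * L := by
        have : 0 ≤ 2 * C₂ * C * G ^ 4 := by positivity
        nlinarith
      calc C₃ * G ^ 2 * Φ ^ 3 * (2 * L * L) = (2 * (C₃ * G ^ 2 * Φ ^ 2)) * (Φ * L * L) := by ring
        _ ≤ (η * L) * (Φ * L * L) := mul_le_mul_of_nonneg_right f2 (by positivity)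
        _ = η * Φ * L ^ 3 := by ring
    refine e1.trans ?_
    rw [div_div Φ W, (mul_div_assoc η Φ (W * Real.log (d.totient : ℝ))).symm]
    apply div_le_div_of_nonneg_left (by positivity) (by positivity)
    exact mul_le_mul hWL hlφ hlφ0.le (by positivity)

/-- **The law for random multipliers.** -/
theorem mult_law (ε : ℝ) (hε : 0 < ε) (hε1 : ε ≤ 1) (N : ℕ) : ∃ D₀ : ℕ, ∀ D Y : ℕ, D₀ ≤ D →
    (D : ℝ) ^ (1 + ε) ≤ Y →
    ∃ B ⊆ Icc 1 D, (B.card : ℝ) ≤ ε * D ∧ ∀ d ∈ Icc 1 D, d ∉ B → 7 ≤ d ∧ N ≤ d.totient ∧ dens d Y ≤ 1 ∧ ∀ K : ℕ,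
    (((seqs (Icc 1 Y) K).filter
      (fun s => ¬ All ε (dens d Y) (fun a s => (a + s * d).Prime) (Cl d) K s)).card : ℝ) ≤ ε * (Y : ℝ) ^ K := by
  obtain ⟨η, hη, X₀, h1⟩ := law (α := ℕ) (β := ℕ) ε hε hε1
  set X₁ : ℕ := max X₀ N with hX₁
  obtain ⟨Y₀, h2⟩ := reg_mult (min η 1) (lt_min hη one_pos)
  obtain ⟨D₁, h3⟩ := degM (min η 1) (ε / 2) (lt_min hη one_pos) (min_le_right _ _) (by positivity)
  obtain ⟨C, hC, hrat⟩ := ratio_log
  have hT : Tendsto (fun Y : ℕ => (Y : ℝ)) atTop atTop := tendsto_natCast_atTop_atTop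
  obtain ⟨D₂, h4⟩ := eventually_atTop.1 ((growthM (C * (X₁ + 1)) 1 (by positivity) one_pos).and
    (((hT.const_mul_atTop (show 0 < ε / 2 by positivity)).eventually_ge_atTop 7)))
  have a1 : ∀ᶠ D : ℕ in atTop, Real.log (D : ℝ) ^ 2 ≤ ε / 2 * D := by
    have h5 := (isLittleO_log_rpow_rpow_atTop (2 : ℝ) (show (0 : ℝ) < 1 by norm_num)).bound
      (show (0 : ℝ) < ε / 2 by positivity)
    filter_upwards [hT.eventually h5, hT.eventually_ge_atTop 1] with D h6 h7
    rw [show (2 : ℝ) = ((2 : ℕ) : ℝ) by norm_num, Real.rpow_natCast, Real.rpow_one,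
      Real.norm_of_nonneg (by positivity), Real.norm_of_nonneg (by linarith)] at h6
    exact h6
  obtain ⟨D₃, h5⟩ := eventually_atTop.1 a1
  refine ⟨max (max D₁ D₂) (max D₃ (Y₀ + 3)), fun D Y hD hDY => ?_⟩
  have hD₁ : D₁ ≤ D := ((le_max_left _ _).trans (le_max_left _ _)).trans hD
  have hD₂ : D₂ ≤ D := ((le_max_right _ _).trans (le_max_left _ _)).trans hD
  have hD₃ : D₃ ≤ D := ((le_max_left _ _).trans (le_max_right _ _)).trans hD
  have hDY₀ : Y₀ + 3 ≤ D := ((le_max_right _ _).trans (le_max_right _ _)).trans hD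
  obtain ⟨⟨g1, g2, g3⟩, g4⟩ := h4 D hD₂
  have g5 := h5 D hD₃
  have hDr : (3 : ℝ) ≤ D := by
    have : 3 ≤ D := by omega
    exact_mod_cast this
  have hDYr : (D : ℝ) ≤ Y := by
    refine le_trans ?_ hDY
    calc (D : ℝ) = (D : ℝ) ^ (1 : ℝ) := (Real.rpow_one _).symm
      _ ≤ (D : ℝ) ^ (1 + ε) := Real.rpow_le_rpow_of_exponent_le (by linarith) (by linarith)
  have hDYn : D ≤ Y := by exact_mod_cast hDYr
  have hDY2 : (D : ℝ) ^ (1 + ε / 2) ≤ Y := le_trans (Real.rpow_le_rpow_of_exponent_le (by linarith) (by linarith)) hDY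
  obtain ⟨B, hB1, hB2, hB3⟩ := h3 D Y hD₁ hDY2
  refine ⟨B ∪ (Icc 1 D).filter (fun d : ℕ => (d : ℝ) ≤ ε / 2 * D), union_subset hB1 (filter_subset _ _), ?_, ?_⟩
  · have c1 : (((Icc 1 D).filter (fun d : ℕ => (d : ℝ) ≤ ε / 2 * D)).card : ℝ) ≤ ε / 2 * D := by
      have e1 : ((Icc 1 D).filter (fun d : ℕ => (d : ℝ) ≤ ε / 2 * D)).card ≤ (Icc 1 ⌊ε / 2 * (D : ℝ)⌋₊).card := by
        apply card_le_card
        intro d hd
        obtain ⟨h6, h7⟩ := mem_filter.1 hd
        exact mem_Icc.2 ⟨(mem_Icc.1 h6).1, Nat.le_floor h7⟩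
      rw [Nat.card_Icc, Nat.add_sub_cancel] at e1
      have e2 : (((Icc 1 D).filter (fun d : ℕ => (d : ℝ) ≤ ε / 2 * D)).card : ℝ) ≤ (⌊ε / 2 * (D : ℝ)⌋₊ : ℝ) := by
        exact_mod_cast e1
      exact e2.trans (Nat.floor_le (by positivity))
    have c2 : ((B ∪ (Icc 1 D).filter (fun d : ℕ => (d : ℝ) ≤ ε / 2 * D)).card : ℝ) ≤
        B.card + (((Icc 1 D).filter (fun d : ℕ => (d : ℝ) ≤ ε / 2 * D)).card : ℝ) := by
      exact_mod_cast card_union_le _ _
    linarith
  · intro d hd hdB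
    rw [mem_union, not_or] at hdB
    obtain ⟨hdB1, hdB2⟩ := hdB
    have hd1 := mem_Icc.1 hd
    have hdD : ε / 2 * (D : ℝ) < d := by
      by_contra h6
      exact hdB2 (mem_filter.2 ⟨hd, not_lt.1 h6⟩)
    have hd7r : (7 : ℝ) < d := lt_of_le_of_lt g4 hdD
    have hd7 : 7 ≤ d := by
      have : 7 < d := by exact_mod_cast hd7r
      omega
    have hdY : d ≤ Y := hd1.2.trans hDYn
    obtain ⟨r1, r2⟩ := h2 d Y hd7 (by omega) hdY (fun a ha1 ha2 ha3 => hB3 d hd hdB1 a ha1 ha2 ha3)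
    have hφ0 : (0 : ℝ) < d.totient := by exact_mod_cast Nat.totient_pos.2 (by omega)
    have hld0 : 0 < Real.log (d * Y : ℝ) := by
      apply Real.log_pos
      nlinarith
    have hdens0 : 0 < dens d Y := by
      unfold dens
      positivity
    -- the size of the totient
    have hX : X₁ ≤ (Cl d).card := by
      rw [card_Cl d (by omega)]
      have e1 := hrat d (Real.log D) (by omega) g1 (Real.log_le_log (by linarith) (by exact_mod_cast hd1.2))
      rw [div_le_iff₀ hφ0] at e1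
      have hG0 : 0 < Real.log (Real.log (D : ℝ)) := by linarith
      have e2 : C * (X₁ + 1) * Real.log (Real.log (D : ℝ)) ≤ Real.log (D : ℝ) ^ 2 := by
        have f1 : Real.log (Real.log (D : ℝ)) ≤ Real.log (Real.log (D : ℝ)) ^ 4 := le_self_pow₀ g2 (by norm_num)
        have f2 : C * (X₁ + 1) * Real.log (Real.log (D : ℝ)) ≤ C * (X₁ + 1) * Real.log (Real.log (D : ℝ)) ^ 4 :=
          mul_le_mul_of_nonneg_left f1 (by positivity)
        nlinarith
      have e3 : C * (X₁ + 1) * Real.log (Real.log (D : ℝ)) ≤ C * Real.log (Real.log (D : ℝ)) * d.totient := by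
        linarith
      have e4 : (X₁ + 1 : ℝ) * (C * Real.log (Real.log (D : ℝ))) ≤ d.totient * (C * Real.log (Real.log (D : ℝ))) := by
        linarith
      have e5 : (X₁ + 1 : ℝ) ≤ d.totient := le_of_mul_le_mul_right e4 (by positivity)
      have e6 : X₁ + 1 ≤ d.totient := by exact_mod_cast e5
      omega
    have hreg : Reg η (dens d Y) (Icc 1 Y) (Cl d) (fun a s => (a + s * d).Prime) := by
      have hmin : min η 1 ≤ η := min_le_left _ _
      have hY0 : (0 : ℝ) ≤ ((Icc 1 Y).card : ℝ) := Nat.cast_nonneg _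
      have hlV : 0 ≤ Real.log ((Cl d).card : ℝ) := Real.log_natCast_nonneg _
      refine ⟨fun n hn => le_trans ?_ (r2.lo n hn), fun H hH hc => (r2.hi H hH hc).trans ?_,
        fun H hH hc => (r2.two H hH hc).trans ?_, fun H hH hc => (r2.three H hH hc).trans ?_⟩
      · apply mul_le_mul_of_nonneg_right _ hY0
        apply mul_le_mul_of_nonneg_right _ hdens0.le
        linarith
      · apply mul_le_mul_of_nonneg_right _ hY0
        apply mul_le_mul_of_nonneg_right _ hdens0.le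
        linarith
      · apply mul_le_mul_of_nonneg_right _ hY0
        exact mul_le_mul_of_nonneg_right hmin hdens0.le
      · apply mul_le_mul_of_nonneg_right _ hY0
        exact mul_le_mul_of_nonneg_right hmin (div_nonneg hdens0.le hlV)
    refine ⟨hd7, ?_, r1, fun K => ?_⟩
    · rw [← card_Cl d (by omega)]
      exact (le_max_right _ _).trans hX
    have h6 := h1 (dens d Y) (Icc 1 Y) (Cl d) (fun a s => (a + s * d).Prime) hdens0 r1 hreg ((le_max_left _ _).trans hX) K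
    rwa [Nat.card_Icc, Nat.add_sub_cancel] at h6

end Pool.Agent.Q145.RA
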