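import Mathlib

set_option autoImplicit false
set_option maxHeartbeats 4000000

/-! # Random shifts kill a set of points slowly -/

namespace Pool.Agent.Q145.RA

open Finset

open scoped Classical

variable {α β : Type}

/-- the number of the sequences of `k` shifts from `S` which leave at most `m` points of `V` -/
noncomputable def bad (S : Finset β) (R : α → β → Prop) (m : ℕ) : ℕ → Finset α → ℕ
  | 0, V => if V.card ≤ m then 1 else 0
  | k + 1, V => ∑ a ∈ S, bad S R m k (V.filter (fun n => ¬ R n a))

theorem bad_le (S : Finset β) (R : α → β → Prop) (m k : ℕ) (V : Finset α) : bad S R m k V ≤ S.card ^ k := by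
  induction k generalizing V with
  | zero =>
    show (if V.card ≤ m then 1 else 0) ≤ _
    split_ifs <;> simp
  | succ k ih =>
    show ∑ a ∈ S, bad S R m k (V.filter (fun n => ¬ R n a)) ≤ _
    calc ∑ a ∈ S, bad S R m k (V.filter (fun n => ¬ R n a)) ≤ ∑ _a ∈ S, S.card ^ k := sum_le_sum fun a _ => ih _
      _ = S.card ^ (k + 1) := by rw [sum_const, smul_eq_mul, pow_succ, mul_comm]

/-- the points left by a sequence -/
noncomputable def left {k : ℕ} (R : α → β → Prop) (V : Finset α) (s : Fin k → β) : Finset α :=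
  V.filter (fun n => ∀ i, ¬ R n (s i))

theorem bad_eq (S : Finset β) (R : α → β → Prop) (m k : ℕ) (V : Finset α) :
    ((Fintype.piFinset (fun _ : Fin k => S)).filter (fun s => (left R V s).card ≤ m)).card = bad S R m k V := by
  induction k generalizing V with
  | zero =>
    show _ = if V.card ≤ m then 1 else 0
    have h1 : ∀ s : Fin 0 → β, left R V s = V := by
      intro s
      unfold left
      apply filter_true_of_mem
      intro n _ i
      exact i.elim0
    have h2 : Fintype.piFinset (fun _ : Fin 0 => S) = {Fin.elim0} := by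
      ext s
      rw [Fintype.mem_piFinset, mem_singleton]
      constructor
      · intro _
        exact Subsingleton.elim _ _
      · intro _ i
        exact i.elim0
    rw [h2, filter_singleton]
    simp only [h1]
    split_ifs <;> simp
  | succ k ih =>
    show _ = ∑ a ∈ S, bad S R m k (V.filter (fun n => ¬ R n a))
    rw [card_eq_sum_card_fiberwise (f := fun s : Fin (k + 1) → β => s 0) (t := S)
      (fun s hs => (Fintype.mem_piFinset.1 (mem_filter.1 hs).1) 0)]
    apply sum_congr rfl
    intro a ha
    rw [← ih]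
    refine card_bij' (fun s _ => Fin.tail s) (fun s _ => Fin.cons a s) ?_ ?_ ?_ ?_
    · intro s hs
      obtain ⟨h1, h2⟩ := mem_filter.1 hs
      obtain ⟨h3, h4⟩ := mem_filter.1 h1
      refine mem_filter.2 ⟨Fintype.mem_piFinset.2 fun i => (Fintype.mem_piFinset.1 h3) i.succ, ?_⟩
      have h5 : left R (V.filter (fun n => ¬ R n a)) (Fin.tail s) = left R V s := by
        unfold left
        rw [filter_filter]
        apply filter_congr
        intro n _
        constructor
        · rintro ⟨h6, h7⟩ i
          refine Fin.cases ?_ ?_ i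
          · rw [h2]
            exact h6
          · exact h7
        · intro h6
          refine ⟨?_, fun i => h6 i.succ⟩
          have := h6 0
          rwa [h2] at this
      rw [h5]
      exact h4
    · intro s hs
      obtain ⟨h1, h2⟩ := mem_filter.1 hs
      refine mem_filter.2 ⟨mem_filter.2 ⟨Fintype.mem_piFinset.2 ?_, ?_⟩, ?_⟩
      · intro i
        refine Fin.cases ?_ ?_ i
        · rw [Fin.cons_zero]
          exact ha
        · intro j
          rw [Fin.cons_succ]
          exact (Fintype.mem_piFinset.1 h1) j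
      · have h5 : left R V (Fin.cons a s : Fin (k + 1) → β) = left R (V.filter (fun n => ¬ R n a)) s := by
          unfold left
          rw [filter_filter]
          apply filter_congr
          intro n _
          constructor
          · intro h6
            refine ⟨?_, fun i => ?_⟩
            · have := h6 0
              rwa [Fin.cons_zero] at this
            · have := h6 i.succ
              rwa [Fin.cons_succ] at this
          · rintro ⟨h6, h7⟩ i
            refine Fin.cases ?_ ?_ i
            · rw [Fin.cons_zero]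
              exact h6
            · intro j
              rw [Fin.cons_succ]
              exact h7 j
        rw [h5]
        exact h2
      · exact Fin.cons_zero _ _
    · intro s hs
      obtain ⟨h1, h2⟩ := mem_filter.1 hs
      rw [← h2]
      exact Fin.cons_self_tail s
    · intro s _
      exact Fin.tail_cons _ _

/-- binomial moments -/
theorem choose_moment (S : Finset β) (V : Finset α) (R : α → β → Prop) (r : ℕ) (T : ℝ)
    (h : ∀ H ⊆ V, H.card = r → ((S.filter (fun a => ∀ n ∈ H, R n a)).card : ℝ) ≤ T) :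
    ∑ a ∈ S, (((V.filter (fun n => R n a)).card.choose r : ℕ) : ℝ) ≤ (V.card.choose r : ℕ) * T := by
  have h1 : ∀ a ∈ S, (((V.filter (fun n => R n a)).card.choose r : ℕ) : ℝ) =
      ∑ H ∈ powersetCard r V, if ∀ n ∈ H, R n a then (1 : ℝ) else 0 := by
    intro a _
    rw [← card_powersetCard, ← sum_filter, sum_const, nsmul_eq_mul, mul_one]
    congr 2
    ext H
    rw [mem_powersetCard, mem_filter, mem_powersetCard]
    constructor
    · rintro ⟨h1, h2⟩
      exact ⟨⟨fun n hn => (mem_filter.1 (h1 hn)).1, h2⟩, fun n hn => (mem_filter.1 (h1 hn)).2⟩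
    · rintro ⟨⟨h1, h2⟩, h3⟩
      exact ⟨fun n hn => mem_filter.2 ⟨h1 hn, h3 n hn⟩, h2⟩
  rw [sum_congr rfl h1, sum_comm]
  have h2 : ∀ H ∈ powersetCard r V, ∑ a ∈ S, (if ∀ n ∈ H, R n a then (1 : ℝ) else 0) ≤ T := by
    intro H hH
    obtain ⟨h3, h4⟩ := mem_powersetCard.1 hH
    rw [← sum_filter, sum_const, nsmul_eq_mul, mul_one]
    exact h H h3 h4
  refine (sum_le_sum h2).trans ?_
  rw [sum_const, nsmul_eq_mul, card_powersetCard]

/-- **The killing process.** -/
theorem kill (S : Finset β) (U : Finset α) (R : α → β → Prop) (δ P₂ T : ℝ) (hδ : 0 ≤ δ) (hP : 0 ≤ P₂) (hT : 0 ≤ T)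
    (h1 : ∀ H ⊆ U, H.card = 1 → ((S.filter (fun a => ∀ n ∈ H, R n a)).card : ℝ) ≤ δ * S.card)
    (h2 : ∀ H ⊆ U, H.card = 2 → ((S.filter (fun a => ∀ n ∈ H, R n a)).card : ℝ) ≤ P₂ * S.card)
    (h3 : ∀ H ⊆ U, H.card = 3 → ((S.filter (fun a => ∀ n ∈ H, R n a)).card : ℝ) ≤ T * S.card)
    (m M : ℕ) (hmM : m ≤ M) (hM : 8 ≤ M) :
    ∀ (k : ℕ) (V : Finset α), V ⊆ U → V.Nonempty →
      (bad S R m k V : ℝ) ≤ (S.card : ℝ) ^ k *
        (M * (1 + (δ + 2 * P₂ + 2 * δ / M)) ^ k / V.card + 22 * T * k) := by
  set lam : ℝ := δ + 2 * P₂ + 2 * δ / M with hlam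
  have hM0 : (0 : ℝ) < M := by
    have : (8 : ℝ) ≤ M := by exact_mod_cast hM
    linarith
  have hlam0 : 0 ≤ lam := by positivity
  have hs0 : (0 : ℝ) ≤ S.card := Nat.cast_nonneg _
  intro k
  induction k with
  | zero =>
    intro V hVU hV
    have hV0 : (0 : ℝ) < V.card := by exact_mod_cast card_pos.2 hV
    rw [pow_zero, pow_zero, one_mul, mul_one, Nat.cast_zero, mul_zero, add_zero]
    show ((if V.card ≤ m then 1 else 0 : ℕ) : ℝ) ≤ _
    split_ifs with h
    · rw [Nat.cast_one, le_div_iff₀ hV0, one_mul]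
      exact_mod_cast h.trans hmM
    · rw [Nat.cast_zero]
      positivity
  | succ k ih =>
    intro V hVU hV
    have hV0 : (0 : ℝ) < V.card := by exact_mod_cast card_pos.2 hV
    rcases lt_or_ge V.card M with hVM | hVM
    · have h4 : (bad S R m (k + 1) V : ℝ) ≤ (S.card : ℝ) ^ (k + 1) := by exact_mod_cast bad_le S R m (k + 1) V
      refine h4.trans (le_mul_of_one_le_right (by positivity) ?_)
      have h5 : (1 : ℝ) ≤ M * (1 + lam) ^ (k + 1) / V.card := by
        rw [le_div_iff₀ hV0, one_mul]
        have h6 : (1 : ℝ) ≤ (1 + lam) ^ (k + 1) := one_le_pow₀ (by linarith)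
        have h7 : (V.card : ℝ) ≤ M := by exact_mod_cast hVM.le
        nlinarith
      have h6 : 0 ≤ 22 * T * ((k + 1 : ℕ) : ℝ) := by positivity
      linarith
    · -- the main case
      have hVMr : (M : ℝ) ≤ V.card := by exact_mod_cast hVM
      have hV8 : 8 ≤ V.card := hM.trans hVM
      set c : β → ℕ := fun a => (V.filter (fun n => R n a)).card with hc
      have hcV : ∀ a, c a ≤ V.card := fun a => card_filter_le _ _
      have hleft : ∀ a, (V.filter (fun n => ¬ R n a)).card + c a = V.card := by
        intro a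
        have := card_filter_add_card_filter_not (s := V) (fun n => R n a)
        simp only [hc]
        omega
      -- the moments
      have m1 : ∑ a ∈ S, (c a : ℝ) ≤ V.card * (δ * S.card) := by
        have := choose_moment S V R 1 (δ * S.card) (fun H hH hc => h1 H (hH.trans hVU) hc)
        simpa [Nat.choose_one_right] using this
      have m2 : ∑ a ∈ S, ((c a : ℝ)) ^ 2 ≤ V.card * (δ * S.card) + (V.card : ℝ) ^ 2 * (P₂ * S.card) := by
        have h4 := choose_moment S V R 2 (P₂ * S.card) (fun H hH hc => h2 H (hH.trans hVU) hc)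
        have h5 : ∀ n : ℕ, ((n.choose 2 : ℕ) : ℝ) = (n : ℝ) * (n - 1) / 2 := fun n => Nat.cast_choose_two ℝ n
        simp_rw [h5] at h4
        have h6 : ∑ a ∈ S, ((c a : ℝ)) ^ 2 = 2 * ∑ a ∈ S, ((c a : ℝ) * (c a - 1) / 2) + ∑ a ∈ S, (c a : ℝ) := by
          rw [mul_sum, ← sum_add_distrib]
          apply sum_congr rfl
          intro a _
          ring
        have h7 : (V.card : ℝ) * (V.card - 1) / 2 * (P₂ * S.card) ≤ (V.card : ℝ) ^ 2 * (P₂ * S.card) / 2 := by
          have : 0 ≤ P₂ * (S.card : ℝ) := by positivity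
          nlinarith
        rw [h6]
        linarith
      have m3 : ∑ a ∈ S, (((c a).choose 3 : ℕ) : ℝ) ≤ (V.card : ℝ) ^ 3 / 6 * (T * S.card) := by
        have h4 := choose_moment S V R 3 (T * S.card) (fun H hH hc => h3 H (hH.trans hVU) hc)
        refine h4.trans (mul_le_mul_of_nonneg_right ?_ (by positivity))
        have h5 := Nat.choose_le_pow_div (α := ℝ) 3 V.card
        have h6 : ((Nat.factorial 3 : ℕ) : ℝ) = 6 := by norm_num [Nat.factorial]
        rw [h6] at h5
        exact h5
      -- the shifts which kill more than one half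
      set S₂ := S.filter (fun a => V.card < 2 * c a) with hS₂
      set S₁ := S.filter (fun a => ¬ V.card < 2 * c a) with hS₁
      have hS₂c : (S₂.card : ℝ) ≤ 22 * T * S.card := by
        have h4 : ∀ a ∈ S₂, (V.card : ℝ) ^ 3 / 132 ≤ (((c a).choose 3 : ℕ) : ℝ) := by
          intro a ha
          have h5 := (mem_filter.1 ha).2
          have h6 : 5 ≤ c a := by omega
          have h7 : (6 : ℝ) * (((c a).choose 3 : ℕ) : ℝ) = (c a : ℝ) * (c a - 1) * (c a - 2) := by
            have h8 : (c a).descFactorial 3 = 3 * 2 * (c a).choose 3 := by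
              rw [Nat.descFactorial_eq_factorial_mul_choose]
              rfl
            have h9 : (c a).descFactorial 3 = (c a - 2) * ((c a - 1) * (c a)) := by
              simp [Nat.descFactorial_succ]
            rw [h9] at h8
            have h10 : (((c a - 2) * ((c a - 1) * (c a)) : ℕ) : ℝ) = ((3 * 2 * (c a).choose 3 : ℕ) : ℝ) := by rw [h8]
            push_cast [Nat.cast_sub (show 2 ≤ c a by omega), Nat.cast_sub (show 1 ≤ c a by omega)] at h10
            linarith
          have h8 : (V.card : ℝ) < 2 * c a := by exact_mod_cast h5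
          have h9 : (5 : ℝ) ≤ c a := by exact_mod_cast h6
          have h10 : (V.card : ℝ) ^ 3 ≤ 8 * (c a : ℝ) ^ 3 := by
            have : (V.card : ℝ) ^ 3 ≤ (2 * (c a : ℝ)) ^ 3 := pow_le_pow_left₀ hV0.le h8.le 3
            linarith [this, show (2 * (c a : ℝ)) ^ 3 = 8 * (c a : ℝ) ^ 3 by ring]
          have h11 : (c a : ℝ) ^ 3 * (12 / 25) ≤ (c a : ℝ) * (c a - 1) * (c a - 2) := by
            have e1 : (4 / 5 : ℝ) * c a ≤ c a - 1 := by linarith
            have e2 : (3 / 5 : ℝ) * c a ≤ c a - 2 := by linarith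
            have e3 : (4 / 5 : ℝ) * c a * (3 / 5 * c a) ≤ (c a - 1) * (c a - 2) :=
              mul_le_mul e1 e2 (by positivity) (by linarith)
            nlinarith
          nlinarith
        have h5 : (S₂.card : ℝ) * ((V.card : ℝ) ^ 3 / 132) ≤ ∑ a ∈ S, (((c a).choose 3 : ℕ) : ℝ) := by
          calc (S₂.card : ℝ) * ((V.card : ℝ) ^ 3 / 132) = ∑ _a ∈ S₂, (V.card : ℝ) ^ 3 / 132 := by
                rw [sum_const, nsmul_eq_mul]
            _ ≤ ∑ a ∈ S₂, (((c a).choose 3 : ℕ) : ℝ) := sum_le_sum h4
            _ ≤ _ := sum_le_sum_of_subset_of_nonneg (filter_subset _ _) (fun a _ _ => Nat.cast_nonneg _)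
        have h6 : (S₂.card : ℝ) * ((V.card : ℝ) ^ 3 / 132) ≤ (V.card : ℝ) ^ 3 / 6 * (T * S.card) := h5.trans m3
        have h7 : (0 : ℝ) < (V.card : ℝ) ^ 3 := by positivity
        have h8 : (S₂.card : ℝ) * (V.card : ℝ) ^ 3 ≤ (22 * T * S.card) * (V.card : ℝ) ^ 3 := by nlinarith
        exact le_of_mul_le_mul_right h8 h7
      -- the other shifts
      have hS₁b : ∀ a ∈ S₁, (bad S R m k (V.filter (fun n => ¬ R n a)) : ℝ) ≤ (S.card : ℝ) ^ k *
          (M * (1 + lam) ^ k / V.card * (1 + c a / V.card + 2 * ((c a : ℝ)) ^ 2 / (V.card : ℝ) ^ 2) + 22 * T * k) := by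
        intro a ha
        have h4 := (mem_filter.1 ha).2
        have h5 : c a * 2 ≤ V.card := by omega
        have h6 := hleft a
        have h7 : 0 < (V.filter (fun n => ¬ R n a)).card := by omega
        have h8 := ih (V.filter (fun n => ¬ R n a)) ((filter_subset _ _).trans hVU) (card_pos.1 h7)
        refine h8.trans (mul_le_mul_of_nonneg_left ?_ (by positivity))
        have h9 : ((V.filter (fun n => ¬ R n a)).card : ℝ) = V.card - c a := by
          have : ((V.filter (fun n => ¬ R n a)).card : ℝ) + c a = V.card := by exact_mod_cast h6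
          linarith
        have h10 : (c a : ℝ) * 2 ≤ V.card := by exact_mod_cast h5
        have hc0 : (0 : ℝ) ≤ c a := Nat.cast_nonneg _
        rw [h9]
        set v : ℝ := (V.card : ℝ) with hv
        set x : ℝ := (c a : ℝ) with hx
        have h11 : 1 / (v - x) ≤ 1 / v * (1 + x / v + 2 * x ^ 2 / v ^ 2) := by
          have hvx : 0 < v - x := by linarith
          rw [div_le_iff₀ hvx]
          have e1 : 1 / v * (1 + x / v + 2 * x ^ 2 / v ^ 2) * (v - x) = 1 + x ^ 2 * (v - 2 * x) / v ^ 3 := by
            field_simp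
            ring
          rw [e1]
          have : 0 ≤ x ^ 2 * (v - 2 * x) / v ^ 3 := by
            apply div_nonneg _ (by positivity)
            apply mul_nonneg (by positivity)
            linarith
          linarith
        have h12 : (M : ℝ) * (1 + lam) ^ k / (v - x) ≤ M * (1 + lam) ^ k / v * (1 + x / v + 2 * x ^ 2 / v ^ 2) := by
          have e0 : 0 ≤ (M : ℝ) * (1 + lam) ^ k := by positivity
          calc (M : ℝ) * (1 + lam) ^ k / (v - x) = M * (1 + lam) ^ k * (1 / (v - x)) := by ring
            _ ≤ M * (1 + lam) ^ k * (1 / v * (1 + x / v + 2 * x ^ 2 / v ^ 2)) := mul_le_mul_of_nonneg_left h11 e0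
            _ = _ := by ring
        linarith
      have hsplit : (bad S R m (k + 1) V : ℝ) = ∑ a ∈ S₂, (bad S R m k (V.filter (fun n => ¬ R n a)) : ℝ) +
          ∑ a ∈ S₁, (bad S R m k (V.filter (fun n => ¬ R n a)) : ℝ) := by
        show ((∑ a ∈ S, bad S R m k (V.filter (fun n => ¬ R n a)) : ℕ) : ℝ) = _
        rw [hS₂, hS₁, sum_filter_add_sum_filter_not]
        push_cast
        rfl
      have b2 : ∑ a ∈ S₂, (bad S R m k (V.filter (fun n => ¬ R n a)) : ℝ) ≤ 22 * T * S.card * (S.card : ℝ) ^ k := by
        calc ∑ a ∈ S₂, (bad S R m k (V.filter (fun n => ¬ R n a)) : ℝ) ≤ ∑ _a ∈ S₂, (S.card : ℝ) ^ k := by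
              apply sum_le_sum
              intro a _
              exact_mod_cast bad_le S R m k _
          _ = S₂.card * (S.card : ℝ) ^ k := by rw [sum_const, nsmul_eq_mul]
          _ ≤ _ := mul_le_mul_of_nonneg_right hS₂c (by positivity)
      set A : ℝ := M * (1 + lam) ^ k / V.card with hA
      have hA0 : 0 ≤ A := by positivity
      have b1 : ∑ a ∈ S₁, (bad S R m k (V.filter (fun n => ¬ R n a)) : ℝ) ≤ (S.card : ℝ) ^ k *
          (A * (S.card * (1 + lam)) + S.card * (22 * T * k)) := by
        have e1 : ∑ a ∈ S₁, (bad S R m k (V.filter (fun n => ¬ R n a)) : ℝ) ≤ ∑ a ∈ S, (S.card : ℝ) ^ k *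
            (A * (1 + c a / V.card + 2 * ((c a : ℝ)) ^ 2 / (V.card : ℝ) ^ 2) + 22 * T * k) := by
          refine (sum_le_sum hS₁b).trans ?_
          apply sum_le_sum_of_subset_of_nonneg (filter_subset _ _)
          intro a _ _
          positivity
        refine e1.trans ?_
        rw [← mul_sum]
        apply mul_le_mul_of_nonneg_left _ (by positivity)
        rw [sum_add_distrib, ← mul_sum, sum_const, nsmul_eq_mul]
        have e2 : ∑ a ∈ S, (1 + (c a : ℝ) / V.card + 2 * ((c a : ℝ)) ^ 2 / (V.card : ℝ) ^ 2) ≤ S.card * (1 + lam) := by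
          have e3 : ∑ a ∈ S, (1 + (c a : ℝ) / V.card + 2 * ((c a : ℝ)) ^ 2 / (V.card : ℝ) ^ 2) =
              S.card + (∑ a ∈ S, (c a : ℝ)) / V.card + 2 * (∑ a ∈ S, ((c a : ℝ)) ^ 2) / (V.card : ℝ) ^ 2 := by
            rw [sum_add_distrib, sum_add_distrib, sum_const, nsmul_eq_mul, mul_one, sum_div, mul_sum, sum_div]
          rw [e3]
          have e4 : (∑ a ∈ S, (c a : ℝ)) / V.card ≤ δ * S.card := by
            rw [div_le_iff₀ hV0]
            linarith
          have e5 : 2 * (∑ a ∈ S, ((c a : ℝ)) ^ 2) / (V.card : ℝ) ^ 2 ≤ 2 * P₂ * S.card + 2 * δ / M * S.card := by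
            have e6 : 2 * (∑ a ∈ S, ((c a : ℝ)) ^ 2) / (V.card : ℝ) ^ 2 ≤
                2 * (V.card * (δ * S.card) + (V.card : ℝ) ^ 2 * (P₂ * S.card)) / (V.card : ℝ) ^ 2 := by
              apply div_le_div_of_nonneg_right _ (by positivity)
              linarith
            refine e6.trans ?_
            have e7 : 2 * (V.card * (δ * S.card) + (V.card : ℝ) ^ 2 * (P₂ * S.card)) / (V.card : ℝ) ^ 2 =
                2 * P₂ * S.card + 2 * δ * S.card / V.card := by
              field_simp
              ring
            rw [e7]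
            have e8 : 2 * δ * S.card / V.card ≤ 2 * δ * S.card / M :=
              div_le_div_of_nonneg_left (by positivity) hM0 hVMr
            have e9 : 2 * δ * S.card / M = 2 * δ / M * S.card := by ring
            linarith
          have e6 : (S.card : ℝ) * (1 + lam) = S.card + δ * S.card + (2 * P₂ * S.card + 2 * δ / M * S.card) := by
            rw [hlam]
            ring
          rw [e6]
          linarith
        have e7 := mul_le_mul_of_nonneg_left e2 hA0
        linarith
      rw [hsplit]
      calc ∑ a ∈ S₂, (bad S R m k (V.filter (fun n => ¬ R n a)) : ℝ) +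
            ∑ a ∈ S₁, (bad S R m k (V.filter (fun n => ¬ R n a)) : ℝ)
          ≤ 22 * T * S.card * (S.card : ℝ) ^ k + (S.card : ℝ) ^ k * (A * (S.card * (1 + lam)) + S.card * (22 * T * k)) :=
            add_le_add b2 b1
        _ = (S.card : ℝ) ^ (k + 1) * (M * (1 + lam) ^ (k + 1) / V.card + 22 * T * ((k + 1 : ℕ) : ℝ)) := by
            rw [hA]
            push_cast
            ring

end Pool.Agent.Q145.RA
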