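import Pool.Agent.Q145.RA.Kill

set_option autoImplicit false
set_option maxHeartbeats 4000000

/-! # The abstract law of random killing -/

namespace Pool.Agent.Q145.RA

open Finset Filter

open scoped Classical

variable {α β : Type}

/-- all sequences of length `k` from `S` -/
noncomputable def seqs (S : Finset β) (k : ℕ) : Finset (Fin k → β) := Fintype.piFinset (fun _ : Fin k => S)

theorem card_seqs (S : Finset β) (k : ℕ) : (seqs S k).card = S.card ^ k := by
  unfold seqs
  rw [Fintype.card_piFinset_const]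

/-- the number of the points of `V` not hit by the sequence -/
noncomputable def surv (R : α → β → Prop) (V : Finset α) {k : ℕ} (s : Fin k → β) : ℕ :=
  (V.filter (fun n => ∀ i, ¬ R n (s i))).card

/-- regular relations of density `δ` -/
structure Reg (η δ : ℝ) (S : Finset β) (V : Finset α) (R : α → β → Prop) : Prop where
  lo : ∀ n ∈ V, (1 - η) * δ * S.card ≤ ((S.filter (fun a => R n a)).card : ℝ)
  hi : ∀ H ⊆ V, H.card = 1 → ((S.filter (fun a => ∀ n ∈ H, R n a)).card : ℝ) ≤ (1 + η) * δ * S.card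
  two : ∀ H ⊆ V, H.card = 2 → ((S.filter (fun a => ∀ n ∈ H, R n a)).card : ℝ) ≤ η * δ * S.card
  three : ∀ H ⊆ V, H.card = 3 →
    ((S.filter (fun a => ∀ n ∈ H, R n a)).card : ℝ) ≤ η * (δ / Real.log V.card) * S.card

/-- the normalised number of steps -/
noncomputable def kap (δ : ℝ) (X k : ℕ) : ℝ := (k : ℝ) * δ / Real.log X

theorem sum_surv (S : Finset β) (V : Finset α) (R : α → β → Prop) (k : ℕ) : ∑ s ∈ seqs S k, surv R V s =
    ∑ n ∈ V, (S.filter (fun a => ¬ R n a)).card ^ k := by
  have h1 : ∀ s ∈ seqs S k, surv R V s = ∑ n ∈ V, if ∀ i, ¬ R n (s i) then 1 else 0 := by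
    intro s _
    unfold surv
    rw [card_filter]
  rw [sum_congr rfl h1, sum_comm]
  apply sum_congr rfl
  intro n _
  rw [← card_filter, ← Fintype.card_piFinset_const]
  congr 1
  ext s
  unfold seqs
  rw [mem_filter, Fintype.mem_piFinset, Fintype.mem_piFinset]
  constructor
  · rintro ⟨h1, h2⟩ i
    exact mem_filter.2 ⟨h1 i, h2 i⟩
  · intro h1
    exact ⟨fun i => (mem_filter.1 (h1 i)).1, fun i => (mem_filter.1 (h1 i)).2⟩

/-- the first moment -/
theorem up (η δ : ℝ) (S : Finset β) (V : Finset α) (R : α → β → Prop) (h : Reg η δ S V R) (k : ℕ) (t : ℝ) (ht : 0 < t) :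
    (((seqs S k).filter (fun s => t ≤ surv R V s)).card : ℝ) ≤
      (S.card : ℝ) ^ k * (V.card * Real.exp (-((1 - η) * δ * k)) / t) := by
  have hS0 : (0 : ℝ) ≤ S.card := Nat.cast_nonneg _
  have h1 : (((seqs S k).filter (fun s => t ≤ surv R V s)).card : ℝ) * t ≤ ∑ s ∈ seqs S k, (surv R V s : ℝ) := by
    calc (((seqs S k).filter (fun s => t ≤ surv R V s)).card : ℝ) * t
        = ∑ _s ∈ (seqs S k).filter (fun s => t ≤ surv R V s), t := by rw [sum_const, nsmul_eq_mul]
      _ ≤ ∑ s ∈ (seqs S k).filter (fun s => t ≤ surv R V s), (surv R V s : ℝ) :=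
          sum_le_sum fun s hs => (mem_filter.1 hs).2
      _ ≤ _ := sum_le_sum_of_subset_of_nonneg (filter_subset _ _) (fun _ _ _ => Nat.cast_nonneg _)
  have h2 : ∑ s ∈ seqs S k, (surv R V s : ℝ) ≤ (S.card : ℝ) ^ k * (V.card * Real.exp (-((1 - η) * δ * k))) := by
    have h3 : ∑ s ∈ seqs S k, (surv R V s : ℝ) =
        ∑ n ∈ V, ((S.filter (fun a => ¬ R n a)).card : ℝ) ^ k := by
      exact_mod_cast sum_surv S V R k
    rw [h3]
    have h4 : ∀ n ∈ V, ((S.filter (fun a => ¬ R n a)).card : ℝ) ^ k ≤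
        (S.card : ℝ) ^ k * Real.exp (-((1 - η) * δ * k)) := by
      intro n hn
      have h5 := h.lo n hn
      have h6 := card_filter_add_card_filter_not (s := S) (fun a => R n a)
      have h7 : ((S.filter (fun a => R n a)).card : ℝ) + ((S.filter (fun a => ¬ R n a)).card : ℝ) = S.card := by
        exact_mod_cast h6
      have h8 : ((S.filter (fun a => ¬ R n a)).card : ℝ) ≤ S.card * Real.exp (-((1 - η) * δ)) := by
        have h9 := Real.add_one_le_exp (-((1 - η) * δ))
        have h10 := mul_le_mul_of_nonneg_left h9 hS0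
        nlinarith
      calc ((S.filter (fun a => ¬ R n a)).card : ℝ) ^ k ≤ (S.card * Real.exp (-((1 - η) * δ))) ^ k :=
            pow_le_pow_left₀ (Nat.cast_nonneg _) h8 k
        _ = (S.card : ℝ) ^ k * Real.exp (-((1 - η) * δ * k)) := by
            rw [mul_pow, ← Real.exp_nat_mul]
            congr 2
            ring
    refine (sum_le_sum h4).trans (le_of_eq ?_)
    rw [sum_const, nsmul_eq_mul]
    ring
  rw [← mul_div_assoc, le_div_iff₀ ht]
  exact h1.trans h2

/-- the lower bound -/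
theorem low (ε : ℝ) (hε : 0 < ε) (hε1 : ε ≤ 1) : ∃ X₀ : ℕ, ∀ (δ : ℝ) (S : Finset β) (V : Finset α)
    (R : α → β → Prop), 0 < δ → Reg (ε / 100) δ S V R → X₀ ≤ V.card → ∀ k : ℕ, kap δ V.card k ≤ 1 - ε →
    (((seqs S k).filter (fun s => (surv R V s : ℝ) ≤ (V.card : ℝ) ^ (1 - kap δ V.card k - ε))).card : ℝ) ≤
      ε * (S.card : ℝ) ^ k := by
  set η : ℝ := ε / 8 with hη
  have hη0 : 0 < η := by positivity
  set M₀ : ℕ := ⌈4 / η⌉₊ + 8 with hM₀
  have hl : Tendsto (fun Y : ℕ => Real.log Y) atTop atTop :=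
    Real.tendsto_log_atTop.comp tendsto_natCast_atTop_atTop
  have a3 : ∀ᶠ X : ℕ in atTop, 1 + (M₀ : ℝ) ≤ ε / 8 * Real.exp (ε / 8 * Real.log X) :=
    ((Real.tendsto_exp_atTop.comp (hl.const_mul_atTop (show 0 < ε / 8 by positivity))).const_mul_atTop
      (show 0 < ε / 8 by positivity)).eventually_ge_atTop _
  obtain ⟨X₀, hX₀⟩ := eventually_atTop.1 (a3.and ((hl.eventually_ge_atTop 1).and (eventually_ge_atTop 3)))
  refine ⟨X₀, fun δ S V R hδ hR hX k hk => ?_⟩
  obtain ⟨g7, g3, g2⟩ := hX₀ V.card hX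
  set X : ℕ := V.card with hVX
  have hXr : (3 : ℝ) ≤ X := by exact_mod_cast g2
  have hX0 : (0 : ℝ) < X := by linarith
  set A := Real.log (X : ℝ) with hA
  set κ := kap δ X k with hκ
  have hA0 : 0 < A := by linarith
  have hκ0 : 0 ≤ κ := by
    rw [hκ]
    unfold kap
    positivity
  have hk' : (k : ℝ) * δ = κ * A := by
    rw [hκ]
    unfold kap
    rw [← hA]
    field_simp
  have hκ1 : κ ≤ 1 := by linarith
  have hkδ0 : 0 ≤ (k : ℝ) * δ := by positivity
  -- the threshold
  set t : ℝ := (X : ℝ) ^ (1 - κ - ε) with ht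
  have ht1 : 1 ≤ t := Real.one_le_rpow (by linarith) (by linarith)
  set m : ℕ := ⌊t⌋₊ with hm
  set M : ℕ := m + M₀ with hM
  have key := kill S V R ((1 + ε / 100) * δ) (ε / 100 * δ) (ε / 100 * (δ / A)) (by positivity) (by positivity)
    (by positivity) hR.hi hR.two hR.three m M (by omega) (by omega) k V (Subset.refl _) (card_pos.1 (by omega))
  rw [← bad_eq] at key
  have h4 : ((seqs S k).filter (fun s => (surv R V s : ℝ) ≤ t)).card =
      ((Fintype.piFinset (fun _ : Fin k => S)).filter (fun s => (left R V s).card ≤ m)).card := by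
    unfold seqs
    congr 1
    apply filter_congr
    intro s _
    have h5 : (left R V s).card = surv R V s := rfl
    rw [h5, hm, Nat.le_floor_iff (by linarith)]
  rw [h4]
  refine key.trans ?_
  rw [mul_comm]
  apply mul_le_mul_of_nonneg_right _ (by positivity)
  -- the first term
  have hMr : (M : ℝ) ≤ (1 + M₀) * t := by
    have : (m : ℝ) ≤ t := Nat.floor_le (by linarith)
    rw [hM]
    push_cast
    have hM₀' : (0 : ℝ) ≤ M₀ := Nat.cast_nonneg _
    nlinarith
  have hM4 : 4 / η ≤ M := by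
    have h5 : 4 / η ≤ ⌈4 / η⌉₊ := Nat.le_ceil _
    rw [hM, hM₀]
    push_cast
    have : (0 : ℝ) ≤ m := Nat.cast_nonneg _
    linarith
  have hM0 : (0 : ℝ) < M := lt_of_lt_of_le (by positivity) hM4
  set lam : ℝ := (1 + ε / 100) * δ + 2 * (ε / 100 * δ) + 2 * ((1 + ε / 100) * δ) / M with hlam
  have hlam0 : 0 ≤ lam := by positivity
  have hlk : lam * k ≤ (κ + 3 * η) * A := by
    have e1 : (1 + ε / 100) * δ * k ≤ (κ + η) * A := by
      have : (1 + ε / 100) * δ * k = (1 + ε / 100) * κ * A := by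
        rw [mul_assoc, mul_comm δ, hk']
        ring
      rw [this]
      apply mul_le_mul_of_nonneg_right _ hA0.le
      nlinarith
    have e2 : 2 * (ε / 100 * δ) * k ≤ η * A := by
      have h6 : 2 * (ε / 100 * δ) * k = 2 * (ε / 100) * (κ * A) := by
        rw [← hk']
        ring
      rw [h6]
      have h7 : κ * A ≤ 1 * A := mul_le_mul_of_nonneg_right hκ1 hA0.le
      nlinarith
    have e3 : 2 * ((1 + ε / 100) * δ) / M * k ≤ η * A := by
      have h6 : 2 * ((1 + ε / 100) * δ) / M * k = 2 * (1 + ε / 100) * κ / M * A := by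
        have : 2 * ((1 + ε / 100) * δ) / M * k = 2 * (1 + ε / 100) * (k * δ) / M := by ring
        rw [this, hk']
        ring
      rw [h6]
      apply mul_le_mul_of_nonneg_right _ hA0.le
      rw [div_le_iff₀ hM0]
      rw [div_le_iff₀ hη0] at hM4
      have h8 : (1 + ε / 100) * κ ≤ 2 := by nlinarith
      linarith
    have e4 : lam * k = (1 + ε / 100) * δ * k + 2 * (ε / 100 * δ) * k + 2 * ((1 + ε / 100) * δ) / M * k := by
      rw [hlam]
      ring
    rw [e4]
    linarith
  have h5 : (1 + lam) ^ k ≤ Real.exp ((κ + 3 * η) * A) := by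
    calc (1 + lam) ^ k ≤ (Real.exp lam) ^ k := by
          apply pow_le_pow_left₀ (by positivity)
          linarith [Real.add_one_le_exp lam]
      _ = Real.exp (k * lam) := by rw [Real.exp_nat_mul]
      _ ≤ _ := Real.exp_le_exp.2 (by linarith [mul_comm lam (k : ℝ)])
  have h6 : t = Real.exp (A * (1 - κ - ε)) := by
    rw [ht, Real.rpow_def_of_pos hX0]
  have h7 : (X : ℝ) = Real.exp A := (Real.exp_log hX0).symm
  have h8 : M * (1 + lam) ^ k / X ≤ ε / 2 := by
    rw [div_le_iff₀ hX0]
    calc (M : ℝ) * (1 + lam) ^ k ≤ (1 + M₀) * t * Real.exp ((κ + 3 * η) * A) :=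
          mul_le_mul hMr h5 (pow_nonneg (by linarith) _) (mul_nonneg (by linarith [Nat.cast_nonneg (α := ℝ) M₀]) (by linarith))
      _ = (1 + M₀) * Real.exp (-(5 * η * A)) * X := by
          rw [h6]
          conv_rhs => rw [h7]
          rw [mul_assoc, mul_assoc, ← Real.exp_add, ← Real.exp_add]
          congr 2
          rw [hη]
          ring
      _ ≤ ε / 2 * X := by
          apply mul_le_mul_of_nonneg_right _ hX0.le
          have e1 : (1 + (M₀ : ℝ)) * Real.exp (-(5 * η * A)) ≤ ε / 8 * Real.exp (ε / 8 * A) * Real.exp (-(5 * η * A)) :=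
            mul_le_mul_of_nonneg_right g7 (Real.exp_pos _).le
          refine e1.trans ?_
          rw [mul_assoc, ← Real.exp_add]
          have e2 : Real.exp (ε / 8 * A + -(5 * η * A)) ≤ 1 := by
            rw [Real.exp_le_one_iff, hη]
            nlinarith
          nlinarith
  have h9 : 22 * (ε / 100 * (δ / A)) * k ≤ ε / 2 := by
    have e1 : 22 * (ε / 100 * (δ / A)) * k = 22 * (ε / 100) * (k * δ) / A := by ring
    rw [e1, hk', div_le_iff₀ hA0]
    have h7 : κ * A ≤ 1 * A := mul_le_mul_of_nonneg_right hκ1 hA0.le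
    nlinarith
  linarith

end Pool.Agent.Q145.RA
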