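import Pool.Agent.H442R2.KF.Bv
import Pool.Agent.Q145.RC.Win

set_option autoImplicit false
set_option maxHeartbeats 4000000

/-! # The number of multipliers which put a class modulo `d` into the primes -/

namespace Pool.Agent.Q145.RA

open Finset Filter
open Pool.Agent.H442R2.KF (piAP piN Er bv)
open Pool.Agent.Q145.RC (window)

open scoped Classical

/-- the number of the multipliers `s ≤ Y` with `a + s d` prime -/
noncomputable def cnt (d Y a : ℕ) : ℕ := ((Icc 1 Y).filter (fun s => (a + s * d).Prime)).card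

theorem cnt_le (d Y a y : ℕ) (hd : 0 < d) (ha : a ≤ d) (hy : d * (Y + 1) ≤ y) : cnt d Y a ≤ piAP y d a := by
  unfold cnt piAP
  apply card_le_card_of_injOn (fun s => a + s * d)
  · intro s hs
    obtain ⟨h1, h2⟩ := mem_filter.1 (mem_coe.1 hs)
    have h3 := mem_Icc.1 h1
    rw [mem_coe, mem_filter, mem_Icc]
    refine ⟨⟨h2.one_le, ?_⟩, h2, ?_⟩
    · have h4 : s * d ≤ Y * d := Nat.mul_le_mul_right _ h3.2
      calc a + s * d ≤ d + Y * d := by omega
        _ = d * (Y + 1) := by ring
        _ ≤ y := hy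
    · show (a + s * d) % d = a % d
      simp
  · intro s _ t _ h
    have h1 : a + s * d = a + t * d := h
    have h2 : s * d = t * d := by omega
    exact Nat.eq_of_mul_eq_mul_right hd h2

theorem piAP_le (d Y a y : ℕ) (hd : 0 < d) (ha : a ≤ d) (hy : y ≤ d * Y) : piAP y d a ≤ cnt d Y a + 1 := by
  unfold cnt piAP
  have h1 : (Icc 1 y).filter (fun p : ℕ => p.Prime ∧ p ≡ a [MOD d]) ⊆
      insert a (((Icc 1 Y).filter (fun s => (a + s * d).Prime)).image (fun s => a + s * d)) := by
    intro p hp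
    obtain ⟨h1, h2, h3⟩ := mem_filter.1 hp
    have h4 := mem_Icc.1 h1
    rw [mem_insert, mem_image]
    rcases le_or_gt p a with h5 | h5
    · left
      have h6 : d ∣ a - p := (Nat.modEq_iff_dvd' h5).1 h3
      rcases Nat.eq_zero_or_pos (a - p) with h7 | h7
      · omega
      · have := Nat.le_of_dvd h7 h6
        omega
    · right
      obtain ⟨s, hs⟩ := (Nat.modEq_iff_dvd' h5.le).1 h3.symm
      have h6 : p = a + s * d := by
        have : s * d = d * s := mul_comm _ _
        omega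
      refine ⟨s, mem_filter.2 ⟨mem_Icc.2 ⟨?_, ?_⟩, ?_⟩, h6.symm⟩
      · rcases Nat.eq_zero_or_pos s with h7 | h7
        · rw [h7] at h6
          omega
        · exact h7
      · have h7 : d * s ≤ d * Y := by
          calc d * s = s * d := mul_comm _ _
            _ ≤ p := by omega
            _ ≤ d * Y := h4.2.trans hy
        exact Nat.le_of_mul_le_mul_left h7 hd
      · rw [← h6]
        exact h2
  refine (card_le_card h1).trans ((card_insert_le _ _).trans ?_)
  exact Nat.add_le_add_right card_image_le 1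

theorem pnt (η : ℝ) (hη : 0 < η) : ∃ y₀ : ℕ, ∀ y : ℕ, y₀ ≤ y → (1 - η) * (y / Real.log y) ≤ piN y ∧
    (piN y : ℝ) ≤ (1 + η) * (y / Real.log y) := by
  obtain ⟨y₀, h⟩ := window η hη
  refine ⟨y₀, fun y hy => ?_⟩
  obtain ⟨h1, h2⟩ := h y hy 0 (Nat.zero_le _)
  have h3 : ((Icc 1 y).filter (fun a => (0 + a).Prime)).card = piN y := by
    unfold piN
    congr 1
    apply filter_congr
    intro a _
    rw [zero_add]
  rw [h3] at h1 h2
  exact ⟨h1, h2⟩

/-- the bad moduli at `y` -/
noncomputable def badM (η : ℝ) (D y : ℕ) : Finset ℕ :=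
  (Icc 1 D).filter (fun d => ∃ a : ℕ, a.Coprime d ∧ η * (y / (d * Real.log y)) < |Er y d a|)

theorem card_badM (η ε ρ : ℝ) (hη : 0 < η) (hε : 0 < ε) (hρ : 0 < ρ) : ∃ D₀ : ℕ, ∀ D y : ℕ, D₀ ≤ D →
    (D : ℝ) ^ (2 + ε) ≤ y → ((badM η D y).card : ℝ) ≤ ρ * D := by
  have hδ : 1 / (2 + ε) < 1 / 2 := one_div_lt_one_div_of_lt (by norm_num) (by linarith)
  obtain ⟨C, hC, h⟩ := bv (1 / (2 + ε)) hδ 2
  have hl : Tendsto (fun Y : ℕ => Real.log Y) atTop atTop :=
    Real.tendsto_log_atTop.comp tendsto_natCast_atTop_atTop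
  obtain ⟨D₀, h0⟩ := eventually_atTop.1 (hl.eventually_ge_atTop (C / (η * ρ)))
  refine ⟨max D₀ 3, fun D y hD hy => ?_⟩
  have hD3 : 3 ≤ D := (le_max_right _ _).trans hD
  have hDr : (3 : ℝ) ≤ D := by exact_mod_cast hD3
  have hDy : (D : ℝ) ≤ y := by
    refine le_trans ?_ hy
    calc (D : ℝ) = (D : ℝ) ^ (1 : ℝ) := (Real.rpow_one _).symm
      _ ≤ (D : ℝ) ^ (2 + ε) := Real.rpow_le_rpow_of_exponent_le (by linarith) (by linarith)
  have hy3 : 3 ≤ y := by
    have : (3 : ℝ) ≤ y := hDr.trans hDy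
    exact_mod_cast this
  have hly : 0 < Real.log (y : ℝ) := Real.log_pos (by linarith)
  have hlD := h0 D ((le_max_left _ _).trans hD)
  have hlDy : Real.log (D : ℝ) ≤ Real.log y := Real.log_le_log (by linarith) hDy
  set B := badM η D y with hB
  have hw : ∀ d ∈ B, ∃ a : ℕ, a.Coprime d ∧ η * (y / (d * Real.log y)) < |Er y d a| := fun d hd => (mem_filter.1 hd).2
  choose! w hw1 hw2 using hw
  have h1 := h y hy3 (fun d => if d ∈ B then w d else 1) (by
    intro d hd
    show Nat.Coprime (if d ∈ B then w d else 1) d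
    split_ifs with h1
    · exact hw1 d h1
    · exact Nat.coprime_one_left d)
  have hsub : B ⊆ Icc 1 ⌊(y : ℝ) ^ (1 / (2 + ε))⌋₊ := by
    intro d hd
    have h2 := mem_Icc.1 (mem_filter.1 hd).1
    refine mem_Icc.2 ⟨h2.1, Nat.le_floor ?_⟩
    have h3 : (d : ℝ) ≤ D := by exact_mod_cast h2.2
    refine h3.trans ?_
    have h4 : (D : ℝ) = ((D : ℝ) ^ (2 + ε)) ^ (1 / (2 + ε)) := by
      rw [← Real.rpow_mul (by linarith), mul_one_div, div_self (by linarith), Real.rpow_one]
    rw [h4]
    apply Real.rpow_le_rpow (by positivity) hy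
    positivity
  have h2 : ∑ d ∈ B, |Er y d (w d)| ≤ C * (y / Real.log y ^ 2) := by
    refine le_trans ?_ h1
    calc ∑ d ∈ B, |Er y d (w d)| = ∑ d ∈ B, |Er y d (if d ∈ B then w d else 1)| := by
          apply sum_congr rfl
          intro d hd
          rw [if_pos hd]
      _ ≤ _ := sum_le_sum_of_subset_of_nonneg hsub (fun _ _ _ => abs_nonneg _)
  have hy0 : (0 : ℝ) < y := by linarith
  have h3 : (B.card : ℝ) * (η * (y / (D * Real.log y))) ≤ ∑ d ∈ B, |Er y d (w d)| := by
    calc (B.card : ℝ) * (η * (y / (D * Real.log y))) = ∑ _d ∈ B, η * (y / (D * Real.log y)) := by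
          rw [sum_const, nsmul_eq_mul]
      _ ≤ ∑ d ∈ B, |Er y d (w d)| := by
          apply sum_le_sum
          intro d hd
          refine le_trans ?_ (hw2 d hd).le
          have h4 := mem_Icc.1 (mem_filter.1 hd).1
          have h5 : (1 : ℝ) ≤ d := by exact_mod_cast h4.1
          have h6 : (d : ℝ) ≤ D := by exact_mod_cast h4.2
          gcongr
  have h4 : (B.card : ℝ) * (η * (y / (D * Real.log y))) ≤ C * (y / Real.log y ^ 2) := h3.trans h2
  have h5 : (B.card : ℝ) * (η * Real.log y) ≤ C * D := by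
    have e1 : (B.card : ℝ) * (η * (y / (D * Real.log y))) * (D * Real.log y ^ 2 / y) = B.card * (η * Real.log y) := by
      field_simp
    have e2 : C * (y / Real.log y ^ 2) * (D * Real.log y ^ 2 / y) = C * D := by
      field_simp
    rw [← e1, ← e2]
    exact mul_le_mul_of_nonneg_right h4 (by positivity)
  have h6 : C / (η * ρ) ≤ Real.log y := hlD.trans hlDy
  rw [div_le_iff₀ (by positivity)] at h6
  have h7 : (B.card : ℝ) * (η * Real.log y) ≤ (ρ * D) * (η * Real.log y) := by
    calc (B.card : ℝ) * (η * Real.log y) ≤ C * D := h5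
      _ ≤ (Real.log y * (η * ρ)) * D := mul_le_mul_of_nonneg_right h6 (by linarith)
      _ = _ := by ring
  exact le_of_mul_le_mul_right h7 (by positivity)

end Pool.Agent.Q145.RA
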