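import Pool.Agent.Q145.RC.Trip

set_option autoImplicit false
set_option maxHeartbeats 4000000

/-! # An upper bound for the number of multipliers which put `r` classes modulo `d` into the primes -/

namespace Pool.Agent.Q145.RA

open Finset Filter
open Pool.Agent.TH101.RG (prod_inv_primeFactors inv_ge_one one_le_prod_real)
open Pool.Agent.Q145.MT (card_filter_inst ratio_small)
open Pool.Agent.H373R2.T7 (pz nuB PerB mem_pz sys_fund Vz nuB_le)
open Pool.Agent.Q145.RC (DH DH_ne DH_le Vz_eq exists_root_nat)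

open scoped Classical

/-- the classes -/
def QM (H : Finset ℕ) (d p s : ℕ) : Prop := ∃ n ∈ H, p ∣ n + s * d

theorem QM_iff (H : Finset ℕ) (d p s : ℕ) : QM H d p s ↔ ∃ n ∈ H, (n : ZMod p) + s * d = 0 := by
  unfold QM
  constructor
  · rintro ⟨n, hn, h⟩
    refine ⟨n, hn, ?_⟩
    have := (ZMod.natCast_eq_zero_iff (n + s * d) p).2 h
    push_cast at this
    exact this
  · rintro ⟨n, hn, h⟩
    refine ⟨n, hn, ?_⟩
    rw [← ZMod.natCast_eq_zero_iff]
    push_cast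
    exact h

theorem QM_per (H : Finset ℕ) (d p s : ℕ) : QM H d p s ↔ QM H d p (s % p) := by
  rw [QM_iff, QM_iff, ZMod.natCast_mod]

/-- no class for the primes dividing `d` -/
theorem nuM_zero (H : Finset ℕ) (d p : ℕ) (hp : p.Prime) (hd : p ∣ d) (hH : ∀ n ∈ H, n.Coprime d) :
    nuB (QM H d) p = 0 := by
  unfold nuB
  rw [card_eq_zero]
  apply filter_false_of_mem
  rintro s _ ⟨n, hn, h⟩
  have h1 : p ∣ n := (Nat.dvd_add_left (Dvd.dvd.mul_left hd s)).1 h
  have h2 := Nat.dvd_gcd h1 hd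
  rw [hH n hn] at h2
  exact hp.one_lt.ne' (Nat.dvd_one.1 h2)

theorem nuM_eq (H : Finset ℕ) (d p : ℕ) (hp : p.Prime) (hd : ¬ p ∣ d) :
    nuB (QM H d) p = (H.image (fun n : ℕ => (-(n : ZMod p) * (d : ZMod p)⁻¹).val)).card := by
  have : Fact p.Prime := ⟨hp⟩
  have hd0 : (d : ZMod p) ≠ 0 := by
    intro h
    exact hd ((ZMod.natCast_eq_zero_iff d p).1 h)
  unfold nuB
  congr 1
  ext s
  rw [mem_filter, mem_range, mem_image, QM_iff]
  constructor
  · rintro ⟨h1, n, hn, h2⟩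
    refine ⟨n, hn, ?_⟩
    have h3 : (s : ZMod p) = -(n : ZMod p) * (d : ZMod p)⁻¹ := by
      rw [← div_eq_mul_inv, eq_div_iff hd0]
      linear_combination h2
    rw [← h3, ZMod.val_natCast, Nat.mod_eq_of_lt h1]
  · rintro ⟨n, hn, rfl⟩
    refine ⟨ZMod.val_lt _, n, hn, ?_⟩
    rw [ZMod.natCast_val, ZMod.cast_id', id, mul_assoc, inv_mul_cancel₀ hd0]
    ring

theorem perM (H : Finset ℕ) (d : ℕ) (hH : ∀ n ∈ H, n.Coprime d) : PerB (QM H d) H.card where
  per := QM_per H d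
  few := by
    intro p hp
    by_cases hd : p ∣ d
    · rw [nuM_zero H d p hp hd hH]
      exact Nat.zero_le _
    · rw [nuM_eq H d p hp hd]
      exact card_image_le

theorem nuM_full (H : Finset ℕ) (d p : ℕ) (hp : p.Prime) (hd : ¬ p ∣ d) (hD : ¬ p ∣ DH H) :
    nuB (QM H d) p = H.card := by
  have : Fact p.Prime := ⟨hp⟩
  have hd0 : (d : ZMod p) ≠ 0 := by
    intro h
    exact hd ((ZMod.natCast_eq_zero_iff d p).1 h)
  rw [nuM_eq H d p hp hd]
  apply card_image_of_injOn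
  have key : ∀ m n : ℕ, m ∈ H → n ∈ H → m < n →
      (-(m : ZMod p) * (d : ZMod p)⁻¹).val ≠ (-(n : ZMod p) * (d : ZMod p)⁻¹).val := by
    intro m n hm hn hmn h
    apply hD
    have h1 := ZMod.val_injective p h
    have h1 := mul_right_cancel₀ (inv_ne_zero hd0) h1
    rw [neg_inj] at h1
    have h2 : p ∣ n - m := by
      have h3 : m % p = n % p := (ZMod.natCast_eq_natCast_iff' m n p).1 h1
      exact (Nat.modEq_iff_dvd' hmn.le).1 h3
    exact h2.trans (dvd_prod_of_mem (fun q : ℕ × ℕ => q.2 - q.1) (mem_filter.2 ⟨mem_product.2 ⟨hm, hn⟩, hmn⟩ : (m, n) ∈ _))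
  intro m hm n hn h
  rcases lt_trichotomy m n with h1 | h1 | h1
  · exact absurd h (key m n hm hn h1)
  · exact h1
  · exact absurd h.symm (key n m hn hm h1)

theorem nuM_pos (H : Finset ℕ) (hH : H.Nonempty) (d p : ℕ) (hp : p.Prime) (hd : ¬ p ∣ d) : 1 ≤ nuB (QM H d) p := by
  rw [nuM_eq H d p hp hd]
  exact card_pos.2 (hH.image _)

theorem prod_sub_le (y n : ℕ) (hn : n ≠ 0) :
    ∏ p ∈ (pz y).filter (fun p => p ∣ n), (1 - 1 / (p : ℝ))⁻¹ ≤ (n : ℝ) / n.totient := by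
  rw [← prod_inv_primeFactors _ hn]
  have h2 : (pz y).filter (fun p => p ∣ n) ⊆ n.primeFactors := by
    intro p hp
    obtain ⟨h3, h4⟩ := mem_filter.1 hp
    exact Nat.mem_primeFactors.2 ⟨(mem_pz.1 h3).2, h4, hn⟩
  rw [← prod_sdiff h2]
  apply le_mul_of_one_le_left
  · apply prod_nonneg
    intro p hp
    exact (lt_of_lt_of_le one_pos (inv_ge_one (mem_pz.1 (mem_filter.1 hp).1).2)).le
  · apply one_le_prod_real
    intro p hp
    exact inv_ge_one (Nat.prime_of_mem_primeFactors (mem_sdiff.1 hp).1)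

/-- the product of the densities -/
theorem prodM_bd (H : Finset ℕ) (hH : H.Nonempty) (d : ℕ) (hd : d ≠ 0) (hHd : ∀ n ∈ H, n.Coprime d) (y : ℕ) :
    ∏ p ∈ pz y, (1 - (nuB (QM H d) p : ℝ) / p) ≤
      Vz y ^ H.card * ((d : ℝ) / d.totient) ^ H.card * ((DH H : ℝ) / (DH H).totient) ^ (H.card - 1) := by
  have hr : 1 ≤ H.card := card_pos.2 hH
  have h1 : ∀ p ∈ pz y, 1 - (nuB (QM H d) p : ℝ) / p ≤ (1 - 1 / (p : ℝ)) ^ H.card *
      (if p ∣ d then ((1 - 1 / (p : ℝ))⁻¹) ^ H.card else 1) *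
      (if p ∣ DH H then ((1 - 1 / (p : ℝ))⁻¹) ^ (H.card - 1) else 1) := by
    intro p hp
    have hpp := (mem_pz.1 hp).2
    have hp2 : (2 : ℝ) ≤ p := by exact_mod_cast hpp.two_le
    have hp0 : (0 : ℝ) < p := by linarith
    have h2 : 1 / (p : ℝ) ≤ 1 / 2 := one_div_le_one_div_of_le (by norm_num) hp2
    have h3 : 0 < 1 / (p : ℝ) := by positivity
    have h5 : (1 - 1 / (p : ℝ)) ≠ 0 := by linarith
    have hinv : 1 ≤ (1 - 1 / (p : ℝ))⁻¹ := inv_ge_one hpp
    have hE : (1 : ℝ) ≤ (if p ∣ DH H then ((1 - 1 / (p : ℝ))⁻¹) ^ (H.card - 1) else 1) := by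
      split_ifs
      · exact one_le_pow₀ hinv
      · exact le_refl _
    by_cases hpd : p ∣ d
    · rw [if_pos hpd, nuM_zero H d p hpp hpd hHd, Nat.cast_zero, zero_div, sub_zero, ← mul_pow, mul_inv_cancel₀ h5,
        one_pow, one_mul]
      exact hE
    · rw [if_neg hpd, mul_one]
      split_ifs with h
      · have h4 : (1 - 1 / (p : ℝ)) ^ H.card * ((1 - 1 / (p : ℝ))⁻¹) ^ (H.card - 1) = 1 - 1 / (p : ℝ) := by
          conv_lhs => rw [show H.card = (H.card - 1) + 1 by omega]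
          rw [pow_succ, Nat.add_sub_cancel, mul_right_comm, ← mul_pow, mul_inv_cancel₀ h5, one_pow, one_mul]
        rw [h4]
        have h5 : (1 : ℝ) ≤ nuB (QM H d) p := by exact_mod_cast nuM_pos H hH d p hpp hpd
        have h6 : 1 / (p : ℝ) ≤ (nuB (QM H d) p : ℝ) / p := div_le_div_of_nonneg_right h5 hp0.le
        linarith
      · rw [mul_one, nuM_full H d p hpp hpd h]
        have h4 := one_add_mul_le_pow (show (-2 : ℝ) ≤ -(1 / (p : ℝ)) by linarith) H.card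
        have h5 : 1 + (H.card : ℝ) * -(1 / (p : ℝ)) = 1 - (H.card : ℝ) / p := by ring
        rw [h5] at h4
        rw [← sub_eq_add_neg] at h4
        exact h4
  have h0 : ∀ p ∈ pz y, 0 ≤ 1 - (nuB (QM H d) p : ℝ) / p := by
    intro p hp
    have hp0 : (0 : ℝ) < p := by exact_mod_cast (mem_pz.1 hp).2.pos
    have h2 : (nuB (QM H d) p : ℝ) / p ≤ 1 := by
      rw [div_le_one hp0]
      exact_mod_cast nuB_le _ p
    linarith
  have hpos : ∀ q : ℕ, 0 ≤ ∏ p ∈ (pz y).filter (fun p => p ∣ q), (1 - 1 / (p : ℝ))⁻¹ := by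
    intro q
    apply prod_nonneg
    intro p hp
    exact (lt_of_lt_of_le one_pos (inv_ge_one (mem_pz.1 (mem_filter.1 hp).1).2)).le
  have hV0 : 0 ≤ Vz y := by
    unfold Vz
    apply prod_nonneg
    intro p hp
    have hp2 : (2 : ℝ) ≤ p := by exact_mod_cast (mem_pz.1 hp).2.two_le
    have h2 : 1 / (p : ℝ) ≤ 1 / 2 := one_div_le_one_div_of_le (by norm_num) hp2
    linarith
  refine (prod_le_prod h0 h1).trans ?_
  rw [prod_mul_distrib, prod_mul_distrib, prod_pow, ← prod_filter, ← prod_filter, prod_pow, prod_pow]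
  have e : ∏ p ∈ pz y, (1 - 1 / (p : ℝ)) = Vz y := rfl
  rw [e]
  apply mul_le_mul
  · apply mul_le_mul_of_nonneg_left _ (pow_nonneg hV0 _)
    exact pow_le_pow_left₀ (hpos d) (prod_sub_le y d hd) _
  · exact pow_le_pow_left₀ (hpos _) (prod_sub_le y _ (DH_ne H)) _
  · exact pow_nonneg (hpos _) _
  · positivity

/-- `n / φ(n) ≤ C log t` for `log n ≤ t` -/
theorem ratio_log : ∃ C : ℝ, 0 < C ∧ ∀ (n : ℕ) (t : ℝ), n ≠ 0 → 3 ≤ t → Real.log n ≤ t →
    (n : ℝ) / n.totient ≤ C * Real.log t := by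
  obtain ⟨c₁, c₂, hc₁, hc₁₂, hcz⟩ := Pool.Agent.H318R2.Cr.cz_bounds
  refine ⟨2 * Real.exp 2 / c₁, by positivity, fun n t hn ht hnt => ?_⟩
  set z := ⌈t⌉₊ with hz
  have hzt : t ≤ z := Nat.le_ceil _
  have hz3 : 3 ≤ z := by
    have : (3 : ℝ) ≤ z := ht.trans hzt
    exact_mod_cast this
  have h3 := ratio_small z n hz3 hn (hnt.trans hzt)
  have h4 : ∏ p ∈ ((Icc 1 z).filter Nat.Prime).filter (fun p => p ∣ n), (1 - 1 / (p : ℝ))⁻¹ ≤ (Vz z)⁻¹ := by
    unfold Vz
    rw [← prod_inv_distrib]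
    have h5 : ((Icc 1 z).filter Nat.Prime).filter (fun p => p ∣ n) ⊆ pz z := filter_subset _ _
    rw [← prod_sdiff h5]
    apply le_mul_of_one_le_left
    · apply prod_nonneg
      intro p hp
      exact (lt_of_lt_of_le one_pos (inv_ge_one (mem_filter.1 (mem_filter.1 hp).1).2)).le
    · apply one_le_prod_real
      intro p hp
      exact inv_ge_one (mem_pz.1 (mem_sdiff.1 hp).1).2
  have hz0 : 0 < Vz z := by
    rw [Vz_eq]
    exact Pool.Agent.H318R2.Cr.V_pos z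
  have hzr : (3 : ℝ) ≤ z := by exact_mod_cast hz3
  have hlz : 0 < Real.log (z : ℝ) := Real.log_pos (by linarith)
  have h5 : (Vz z)⁻¹ ≤ Real.log z / c₁ := by
    have h6 := (hcz z (by omega)).1
    rw [← Vz_eq] at h6
    rw [inv_le_iff_one_le_mul₀ hz0, div_mul_eq_mul_div, le_div_iff₀ hc₁, one_mul]
    linarith [h6, mul_comm (Vz z) (Real.log z)]
  have h8 : Real.log (z : ℝ) ≤ 2 * Real.log t := by
    have h9 : (z : ℝ) < t + 1 := Nat.ceil_lt_add_one (by linarith)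
    have h10 : (z : ℝ) ≤ t ^ 2 := by nlinarith
    have := Real.log_le_log (by linarith) h10
    rw [Real.log_pow] at this
    exact_mod_cast this
  calc (n : ℝ) / n.totient ≤ Real.exp 2 * (Vz z)⁻¹ :=
        h3.trans (mul_le_mul_of_nonneg_left h4 (Real.exp_pos _).le)
    _ ≤ Real.exp 2 * (Real.log z / c₁) := mul_le_mul_of_nonneg_left h5 (Real.exp_pos _).le
    _ ≤ Real.exp 2 * (2 * Real.log t / c₁) := by gcongr
    _ = 2 * Real.exp 2 / c₁ * Real.log t := by ring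

end Pool.Agent.Q145.RA
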