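import Pool.Agent.Q145.RA.All
import Pool.Agent.Q145.RC.Trip
import Pool.Agent.Q145.RC.Win

set_option autoImplicit false
set_option maxHeartbeats 4000000

/-! # Shifts to the primes are a regular relation -/

namespace Pool.Agent.Q145.RA

open Finset Filter
open Pool.Agent.Q145.RC (shifts_bd window)

open scoped Classical

theorem growthS (η C₂ C₃ : ℝ) (hη : 0 < η) (hC₂ : 0 < C₂) (hC₃ : 0 < C₃) : ∀ᶠ Y : ℕ in atTop,
    1 ≤ Real.log Y ∧ C₂ * Real.log (Real.log Y) ≤ η * Real.log Y ∧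
    C₃ * Real.log (Real.log Y) ^ 2 ≤ η * Real.log Y := by
  have hl : Tendsto (fun Y : ℕ => Real.log Y) atTop atTop :=
    Real.tendsto_log_atTop.comp tendsto_natCast_atTop_atTop
  have hll : Tendsto (fun Y : ℕ => Real.log (Real.log Y)) atTop atTop := Real.tendsto_log_atTop.comp hl
  have a1 : ∀ᶠ X : ℕ in atTop, C₂ * Real.log (Real.log X) ≤ η * Real.log X := by
    have h1 := (Real.isLittleO_log_id_atTop.bound (show (0 : ℝ) < η / C₂ by positivity))
    have h2 := hl.eventually h1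
    filter_upwards [h2, hl.eventually_ge_atTop 1, hll.eventually_ge_atTop 0] with X h3 h4 h5
    rw [id, Real.norm_of_nonneg h5, Real.norm_of_nonneg (by linarith), div_mul_eq_mul_div,
      le_div_iff₀ (by positivity)] at h3
    linarith
  have a2 : ∀ᶠ Y : ℕ in atTop, C₃ * Real.log (Real.log Y) ^ 2 ≤ η * Real.log Y := by
    have h1 := (isLittleO_log_rpow_rpow_atTop (2 : ℝ) (show (0 : ℝ) < 1 by norm_num)).bound
      (show (0 : ℝ) < η / C₃ by positivity)
    have h2 := hl.eventually h1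
    filter_upwards [h2, hl.eventually_ge_atTop 1, hll.eventually_ge_atTop 0] with X h3 h4 h5
    rw [show (2 : ℝ) = ((2 : ℕ) : ℝ) by norm_num, Real.rpow_natCast, Real.rpow_one,
      Real.norm_of_nonneg (by positivity), Real.norm_of_nonneg (by linarith), div_mul_eq_mul_div,
      le_div_iff₀ (by positivity)] at h3
    linarith
  filter_upwards [a1, a2, hl.eventually_ge_atTop 1] with Y h1 h2 h3
  exact ⟨h3, h1, h2⟩

/-- for every `η` and large `Y` the relation `n + a` prime is regular of density `1 / log Y` for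
all sets of points of `[1, Y]` -/
theorem reg_shifts (η : ℝ) (hη : 0 < η) : ∃ Y₀ : ℕ, ∀ Y : ℕ, Y₀ ≤ Y → ∀ V : Finset ℕ, V ⊆ Icc 1 Y → 3 ≤ V.card →
    Reg η (1 / Real.log Y) (Icc 1 Y) V (fun n a => (n + a).Prime) := by
  obtain ⟨Y₁, hw⟩ := window η hη
  obtain ⟨C₂, hC₂, Y₂, h2⟩ := shifts_bd 2 (by norm_num)
  obtain ⟨C₃, hC₃, Y₃, h3⟩ := shifts_bd 3 (by norm_num)
  obtain ⟨Y₄, h4⟩ := eventually_atTop.1 (growthS η C₂ C₃ hη hC₂ hC₃)
  refine ⟨max (max Y₁ Y₂) (max Y₃ Y₄), fun Y hY V hV hV3 => ?_⟩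
  have hY₁ : Y₁ ≤ Y := ((le_max_left _ _).trans (le_max_left _ _)).trans hY
  have hY₂ : Y₂ ≤ Y := ((le_max_right _ _).trans (le_max_left _ _)).trans hY
  have hY₃ : Y₃ ≤ Y := ((le_max_left _ _).trans (le_max_right _ _)).trans hY
  have hY₄ : Y₄ ≤ Y := ((le_max_right _ _).trans (le_max_right _ _)).trans hY
  obtain ⟨g1, g2, g3⟩ := h4 Y hY₄
  have hL0 : 0 < Real.log (Y : ℝ) := by linarith
  have hVY : V.card ≤ Y := by
    have := card_le_card hV
    rwa [Nat.card_Icc, Nat.add_sub_cancel] at this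
  have hV3r : (3 : ℝ) ≤ V.card := by exact_mod_cast hV3
  have hVYr : (V.card : ℝ) ≤ Y := by exact_mod_cast hVY
  have hA0 : 0 < Real.log (V.card : ℝ) := Real.log_pos (by linarith)
  have hAL : Real.log (V.card : ℝ) ≤ Real.log Y := Real.log_le_log (by linarith) hVYr
  have hY0 : (0 : ℝ) ≤ Y := Nat.cast_nonneg _
  refine ⟨?_, ?_, ?_, ?_⟩
  · intro n hn
    have h5 := (hw Y hY₁ n (mem_Icc.1 (hV hn)).2).1
    rw [Nat.card_Icc, Nat.add_sub_cancel]
    refine le_trans (le_of_eq ?_) (h5.trans (le_of_eq (congrArg Nat.cast (card_filter_inst _ _ _ _))))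
    ring
  · intro H hH hc
    obtain ⟨n, rfl⟩ := card_eq_one.1 hc
    have h4 := (hw Y hY₁ n (mem_Icc.1 (hV (hH (mem_singleton_self n)))).2).2
    have h5 : ((Icc 1 Y).filter (fun a => ∀ n' ∈ ({n} : Finset ℕ), (n' + a).Prime)).card ≤
        ((Icc 1 Y).filter (fun a => (n + a).Prime)).card := by
      apply card_le_card
      intro a ha
      obtain ⟨h6, h7⟩ := mem_filter.1 ha
      exact mem_filter.2 ⟨h6, h7 n (mem_singleton_self n)⟩
    rw [Nat.card_Icc, Nat.add_sub_cancel]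
    refine (le_of_eq (congrArg Nat.cast (card_filter_inst _ _ _ _))).trans ((Nat.cast_le.2 h5).trans (h4.trans (le_of_eq ?_)))
    ring
  · intro H hH hc
    have h4 := h2 Y hY₂ H hc (fun n hn => (mem_Icc.1 (hV (hH hn))).2)
    rw [Nat.card_Icc, Nat.add_sub_cancel]
    refine (le_of_eq (congrArg Nat.cast (card_filter_inst _ _ _ _))).trans (h4.trans ?_)
    rw [show 2 - 1 = 1 by norm_num, pow_one]
    apply mul_le_mul_of_nonneg_right _ hY0
    rw [div_le_iff₀ (by positivity)]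
    have : η * (1 / Real.log Y) * Real.log Y ^ 2 = η * Real.log Y := by field_simp
    rw [this]
    exact g2
  · intro H hH hc
    have h4 := h3 Y hY₃ H hc (fun n hn => (mem_Icc.1 (hV (hH hn))).2)
    rw [Nat.card_Icc, Nat.add_sub_cancel]
    refine (le_of_eq (congrArg Nat.cast (card_filter_inst _ _ _ _))).trans (h4.trans ?_)
    rw [show 3 - 1 = 2 by norm_num]
    apply mul_le_mul_of_nonneg_right _ hY0
    rw [div_le_iff₀ (by positivity)]
    have h5 : η * (1 / Real.log Y / Real.log V.card) * Real.log Y ^ 3 =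
        η * Real.log Y * (Real.log Y / Real.log V.card) := by field_simp
    rw [h5]
    have h6 : 1 ≤ Real.log Y / Real.log V.card := by rwa [le_div_iff₀ hA0, one_mul]
    have h7 : 0 ≤ η * Real.log Y := by positivity
    nlinarith

/-- the law for shifts -/
theorem shifts_law (ε : ℝ) (hε : 0 < ε) (hε1 : ε ≤ 1) : ∃ X₀ : ℕ, ∀ (V : Finset ℕ) (Y : ℕ), X₀ ≤ V.card → V ⊆ Icc 1 Y →
    ∀ K : ℕ, (((seqs (Icc 1 Y) K).filter
      (fun s => ¬ All ε (1 / Real.log Y) (fun n a => (n + a).Prime) V K s)).card : ℝ) ≤ ε * (Y : ℝ) ^ K := by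
  obtain ⟨η, hη, X₁, h1⟩ := law (α := ℕ) (β := ℕ) ε hε hε1
  obtain ⟨Y₀, h2⟩ := reg_shifts η hη
  refine ⟨max (max X₁ Y₀) 3, fun V Y hX hV K => ?_⟩
  have hVY : V.card ≤ Y := by
    have := card_le_card hV
    rwa [Nat.card_Icc, Nat.add_sub_cancel] at this
  have hX3 : 3 ≤ V.card := (le_max_right _ _).trans hX
  have hYr : (3 : ℝ) ≤ Y := by exact_mod_cast hX3.trans hVY
  have hL : 1 ≤ Real.log (Y : ℝ) := by
    rw [← Real.log_exp 1]
    apply Real.log_le_log (Real.exp_pos _)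
    have := Real.exp_one_lt_d9
    linarith
  have h3 := h1 (1 / Real.log Y) (Icc 1 Y) V (fun n a => (n + a).Prime) (by positivity)
    (by rw [div_le_one (by linarith)]; exact hL) (h2 Y (((le_max_right _ _).trans (le_max_left _ _)).trans (hX.trans hVY)) V hV hX3)
    (((le_max_left _ _).trans (le_max_left _ _)).trans hX) K
  rwa [Nat.card_Icc, Nat.add_sub_cancel] at h3

end Pool.Agent.Q145.RA
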